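import Pool.Agent.H857.PA.Low

/-!
# The numbers of families of Weil polynomials with relations: two-sided bounds
-/

set_option autoImplicit false
set_option linter.unusedSectionVars false

namespace Pool.Agent.H857.PA

open Polynomial Pool.Agent.W521.Frob Pool.Agent.W521.Descent Pool.Agent.W521.Density
  Pool.Agent.W521.Count Pool.Agent.W521.Lower Pool.Agent.X297.UB Pool.Agent.H857.PB
  Pool.Agent.Y1.CT Pool.Agent.W484.HS

section

variable {I κ : Type} [Fintype I] [DecidableEq I] [Fintype κ] (g : I → ℕ)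

/-- The order of magnitude of the number of the families with a relation, as a function of
`Q = √q`. -/
noncomputable def famBound (Q : ℝ) : ℝ :=
  ∑ i, Q ^ expo (g i) * ∏ j ∈ Finset.univ.erase i, Q ^ tot (g j)

/-- The families of Weil polynomials with integral Newton polygons. -/
def fams (p : ℕ) [Fact p.Prime] (a : ℕ) : Set (I → ℤ[X]) :=
  {f | ∀ i, f i ∈ newtonWeil p a (g i)}

lemma fams_finite {p : ℕ} [Fact p.Prime] {a : ℕ} : (fams g p a).Finite := by
  refine (Set.Finite.pi (ι := I) (t := fun i => newtonWeil p a (g i))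
    fun i => newtonWeil_finite).subset ?_
  intro f hf i _
  exact hf i

lemma ncard_box (S : I → Set ℤ[X]) (hS : ∀ i, (S i).Finite) :
    ({f : I → ℤ[X] | ∀ i, f i ∈ S i}).ncard = ∏ i, (S i).ncard := by
  classical
  have h1 : {f : I → ℤ[X] | ∀ i, f i ∈ S i} =
      ((Fintype.piFinset fun i => (hS i).toFinset : Finset (I → ℤ[X])) : Set (I → ℤ[X])) := by
    ext f
    simp [Fintype.mem_piFinset]
  rw [h1, Set.ncard_coe_finset, Fintype.card_piFinset]
  refine Finset.prod_congr rfl fun i _ => ?_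
  rw [Set.ncard_eq_toFinset_card _ (hS i)]

/-- **The upper bound.** -/
theorem exists_upper (κ : Type) [Fintype κ] (hg : ∀ i, 0 < g i) {D : ℕ} (hD : 0 < D) (c : ℕ) :
    ∃ C : ℝ, 0 < C ∧ ∀ (p : ℕ) [Fact p.Prime] (a : ℕ), 0 < a → ∀ (w : κ → ℕ) (ρ : κ → ℂ),
      (∀ k, w k < c ∧ IsWeilNum p a D (w k) (ρ k)) →
      ({f ∈ fams g p a | ¬ NoRel f (p ^ a) (Gen (p ^ a) ρ)}.ncard : ℝ) ≤
        C * famBound g (Real.sqrt ((p : ℝ) ^ a)) := by
  obtain ⟨C, hC, h⟩ := exists_count κ g hg hD c
  refine ⟨C, hC, fun p _ a ha w ρ hρ => ?_⟩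
  have hp : p.Prime := Fact.out
  have hq : p ^ a ≠ 0 := pow_ne_zero _ hp.ne_zero
  have hq1 : 1 < p ^ a := Nat.one_lt_pow ha.ne' hp.one_lt
  refine le_trans ?_ (h p a ha w ρ hρ)
  set S := {x : ∀ i, Fin (g i) → ℤ | (∀ i, wp (p ^ a) (g i) (x i) ∈ newtonWeil p a (g i)) ∧
        Exc g (p ^ a) w ρ x} with hS
  have hSfin : S.Finite := by
    refine (Finset.finite_toSet (Fintype.piFinset fun i =>
      Fintype.piFinset (box (p ^ a) (g i)))).subset ?_
    rintro x ⟨hx, _⟩
    rw [Finset.mem_coe, Fintype.mem_piFinset]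
    exact fun i => mem_box hq (hx i).1
  have hsub : {f ∈ fams g p a | ¬ NoRel f (p ^ a) (Gen (p ^ a) ρ)} ⊆
      (fun x i => wp (p ^ a) (g i) (x i)) '' S := by
    rintro f ⟨hf1, hf2⟩
    choose x hx using fun i => exists_point hq (hf1 i).1
    have hfx : f = fun i => wp (p ^ a) (g i) (x i) := funext fun i => (hx i).1
    refine ⟨x, ⟨fun i => ?_, ?_⟩, hfx.symm⟩
    · have := hf1 i
      rwa [hfx] at this
    · by_contra hexc
      apply hf2
      rw [hfx]
      refine noRel_of_not_exc g hq1 (fun k => ?_) (fun i => ?_) hexc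
      · rw [(hρ k).2.norm_sq]
        push_cast
        rfl
      · have := (hf1 i).1
        rwa [hfx] at this
  have h1 := (Set.ncard_le_ncard hsub (hSfin.image _)).trans (Set.ncard_image_le hSfin)
  exact_mod_cast h1

/-- The product of the constants. -/
noncomputable def lowConst : ℝ := ∏ i, (4 * (2 : ℝ) ^ (g i ^ 2))

lemma lowConst_pos : 0 < lowConst g := Finset.prod_pos fun i _ => by positivity

/-- The number of all the families. -/
theorem fams_lower {p : ℕ} [Fact p.Prime] {a : ℕ} (ha : 0 < a) :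
    ∏ i, Real.sqrt ((p : ℝ) ^ a) ^ tot (g i) ≤ lowConst g * ((fams g p a).ncard : ℝ) := by
  rw [fams, ncard_box (fun i => newtonWeil p a (g i)) (fun i => newtonWeil_finite), lowConst,
    Nat.cast_prod, ← Finset.prod_mul_distrib]
  exact Finset.prod_le_prod (fun i _ => by positivity) fun i _ => newtonWeil_lower ha (g i)

/-- **The lower bound.** -/
theorem exc_lower (hg : ∀ i, 0 < g i) {p : ℕ} [Fact p.Prime] {a : ℕ} (ha : 0 < a)
    (R : ℂ → Prop) :
    famBound g (Real.sqrt ((p : ℝ) ^ a)) ≤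
      (Fintype.card I * lowConst g) * ({f ∈ fams g p a | ¬ NoRel f (p ^ a) R}.ncard : ℝ) := by
  classical
  have hp : p.Prime := Fact.out
  have hq : p ^ a ≠ 0 := pow_ne_zero _ hp.ne_zero
  have h1 : ∀ i, Real.sqrt ((p : ℝ) ^ a) ^ expo (g i) *
      ∏ j ∈ Finset.univ.erase i, Real.sqrt ((p : ℝ) ^ a) ^ tot (g j) ≤
        lowConst g * ({f ∈ fams g p a | ¬ NoRel f (p ^ a) R}.ncard : ℝ) := by
    intro i
    set S : I → Set ℤ[X] := fun j => if j = i then Ex p a (g j) else newtonWeil p a (g j) with hS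
    have hSfin : ∀ j, (S j).Finite := by
      intro j
      simp only [hS]
      split_ifs
      · exact Ex_finite
      · exact newtonWeil_finite
    have hsub : {f : I → ℤ[X] | ∀ j, f j ∈ S j} ⊆ {f ∈ fams g p a | ¬ NoRel f (p ^ a) R} := by
      intro f hf
      have hfi : f i ∈ Ex p a (g i) := by
        have := hf i
        simpa [hS] using this
      refine ⟨fun j => ?_, ?_⟩
      · have := hf j
        simp only [hS] at this
        split_ifs at this
        · exact this.1
        · exact this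
      · obtain ⟨α, h0, h1, h2⟩ := hfi.2
        exact not_noRel hq i h0 h1 h2
    have h2 := Set.ncard_le_ncard hsub ((fams_finite g).subset fun f hf => hf.1)
    rw [ncard_box S hSfin] at h2
    have h3 : ∏ j, (if j = i then Real.sqrt ((p : ℝ) ^ a) ^ expo (g j) else
        Real.sqrt ((p : ℝ) ^ a) ^ tot (g j)) ≤ ∏ j, ((4 * (2 : ℝ) ^ (g j ^ 2)) * ((S j).ncard : ℝ)) := by
      refine Finset.prod_le_prod (fun j _ => by split_ifs <;> positivity) fun j _ => ?_
      simp only [hS]
      split_ifs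
      · exact Ex_lower ha (hg j)
      · exact newtonWeil_lower ha (g j)
    have h4 : ∏ j, (if j = i then Real.sqrt ((p : ℝ) ^ a) ^ expo (g j) else
        Real.sqrt ((p : ℝ) ^ a) ^ tot (g j)) = Real.sqrt ((p : ℝ) ^ a) ^ expo (g i) *
      ∏ j ∈ Finset.univ.erase i, Real.sqrt ((p : ℝ) ^ a) ^ tot (g j) := by
      rw [← Finset.mul_prod_erase Finset.univ _ (Finset.mem_univ i), if_pos rfl]
      congr 1
      refine Finset.prod_congr rfl fun j hj => ?_
      rw [if_neg (Finset.ne_of_mem_erase hj)]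
    rw [h4, Finset.prod_mul_distrib, ← Nat.cast_prod] at h3
    refine h3.trans ?_
    rw [lowConst]
    exact mul_le_mul_of_nonneg_left (by exact_mod_cast h2) (lowConst_pos g).le
  rw [famBound]
  refine (Finset.sum_le_sum fun i _ => h1 i).trans (le_of_eq ?_)
  rw [Finset.sum_const, nsmul_eq_mul, Finset.card_univ]
  ring

end

end Pool.Agent.H857.PA
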