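import Pool.Agent.H857.PA.Family

/-!
# The number of families with a relation
-/

set_option autoImplicit false
set_option linter.unusedSectionVars false

namespace Pool.Agent.H857.PA

open Polynomial Pool.Agent.W521.Descent Pool.Agent.X297.UB Pool.Agent.H857.PB

/-- The exponent of `√q` in the number of all the Weil polynomials of degree `2 g`. -/
def tot (g : ℕ) : ℕ := g * (g + 1) / 2

lemma sum_tot (g : ℕ) : ∑ k : Fin g, (g - (k : ℕ)) = tot g := by
  have := sum_all g
  rw [tot]
  omega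

lemma card_all_box {q g : ℕ} (hq : 0 < q) :
    ((Fintype.piFinset (box q g)).card : ℝ) ≤ (3 * 4 ^ g) ^ g * Real.sqrt q ^ tot g := by
  rw [Fintype.card_piFinset, Nat.cast_prod]
  calc ∏ k, ((box q g k).card : ℝ) ≤ ∏ k : Fin g, ((3 * 4 ^ g) * Real.sqrt q ^ (g - (k : ℕ))) :=
        Finset.prod_le_prod (fun k _ => Nat.cast_nonneg _) fun k _ => card_box hq k
    _ = _ := by
        rw [Finset.prod_mul_distrib, Finset.prod_const, Finset.card_univ, Fintype.card_fin,
          Finset.prod_pow_eq_pow_sum, sum_tot]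

section

variable {I κ : Type} [Fintype I] [DecidableEq I] [Fintype κ] (g : I → ℕ)

/-- The number of the families of Weil polynomials with a relation with given exponents. -/
theorem exists_count_one (i : I) (hg : 0 < g i) (e : Idx g κ → ℕ)
    (he : NontrivAt g i e) :
    ∃ C : ℝ, 0 < C ∧ ∀ q : ℕ, 0 < q → ∀ (w : κ → ℕ) (ρ : κ → ℂ),
      ({x : ∀ i, Fin (g i) → ℤ | (∀ i, wp q (g i) (x i) ∈ weilPolys q (g i)) ∧
        RelExp q (wt g w) (num g q w ρ x) e}.ncard : ℝ) ≤
        C * (Real.sqrt q ^ expo (g i) * ∏ j ∈ Finset.univ.erase i, Real.sqrt q ^ tot (g j)) := by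
  classical
  obtain ⟨C, hC, h⟩ := exists_fibre_fam g i hg e he
  set B : ℝ := ∏ j : {j // j ≠ i}, (3 * (4 : ℝ) ^ g j) ^ g j with hB
  have hB0 : 0 < B := Finset.prod_pos fun j _ => by positivity
  refine ⟨C * B, by positivity, fun q hq w ρ => ?_⟩
  set S : Finset (∀ i, Fin (g i) → ℤ) :=
    (Fintype.piFinset fun i => Fintype.piFinset (box q (g i))).filter fun x =>
      (∀ i, wp q (g i) (x i) ∈ weilPolys q (g i)) ∧
        RelExp q (wt g w) (num g q w ρ x) e with hS
  have hset : {x : ∀ i, Fin (g i) → ℤ | (∀ i, wp q (g i) (x i) ∈ weilPolys q (g i)) ∧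
      RelExp q (wt g w) (num g q w ρ x) e} = (S : Set (∀ i, Fin (g i) → ℤ)) := by
    ext x
    rw [hS, Finset.coe_filter, Set.mem_ofPred_eq, Set.mem_ofPred_eq]
    constructor
    · rintro ⟨h1, h2⟩
      exact ⟨Fintype.mem_piFinset.2 fun i => mem_box hq.ne' (h1 i), h1, h2⟩
    · rintro ⟨_, h1⟩
      exact h1
  rw [hset, Set.ncard_coe_finset]
  set res : (∀ i, Fin (g i) → ℤ) → (∀ j : {j // j ≠ i}, Fin (g j) → ℤ) := fun x j => x j with hres
  set N : ℕ := ⌊C * Real.sqrt q ^ expo (g i)⌋₊ with hN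
  have hs : (1 : ℝ) ≤ Real.sqrt q := by
    rw [Real.one_le_sqrt]
    exact_mod_cast hq
  have h1 : S.card ≤ N * (S.image res).card := by
    refine Finset.card_le_mul_card_image S N fun y hy => ?_
    obtain ⟨x0, hx0, rfl⟩ := Finset.mem_image.1 hy
    set F := S.filter fun x => res x = res x0 with hF
    have hupd : ∀ x ∈ F, x = Function.update x0 i (x i) := by
      intro x hx
      have h2 : res x = res x0 := (Finset.mem_filter.1 hx).2
      funext j
      by_cases hj : j = i
      · subst hj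
        rw [Function.update_self]
      · rw [Function.update_of_ne hj]
        exact congrFun h2 ⟨j, hj⟩
    have hinj : Set.InjOn (fun x : ∀ i, Fin (g i) → ℤ => x i) F := by
      intro x hx x' hx' hxx'
      rw [hupd x hx, hupd x' hx']
      simp only at hxx'
      rw [hxx']
    have h3 : F.card = ((fun x : ∀ i, Fin (g i) → ℤ => x i) '' (F : Set _)).ncard := by
      rw [hinj.ncard_image, Set.ncard_coe_finset]
    rw [h3]
    refine Nat.le_floor ?_
    refine h q hq w ρ x0 _ ?_
    rintro _ ⟨x, hx, rfl⟩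
    have h4 := hupd x hx
    have h5 := (Finset.mem_filter.1 (Finset.mem_filter.1 hx).1).2
    refine ⟨h5.1 i, ?_⟩
    simp only
    rw [← h4]
    exact h5.2
  have h2 : ((S.image res).card : ℝ) ≤ B * ∏ j ∈ Finset.univ.erase i, Real.sqrt q ^ tot (g j) := by
    have h3 : S.image res ⊆ Fintype.piFinset fun j : {j // j ≠ i} =>
        Fintype.piFinset (box q (g j)) := by
      intro y hy
      obtain ⟨x, hx, rfl⟩ := Finset.mem_image.1 hy
      rw [Fintype.mem_piFinset]
      intro j
      exact Fintype.mem_piFinset.1 (Finset.mem_filter.1 hx).1 j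
    have h4 : ((S.image res).card : ℝ) ≤
        ∏ j : {j // j ≠ i}, ((3 * (4 : ℝ) ^ g j) ^ g j * Real.sqrt q ^ tot (g j)) := by
      calc ((S.image res).card : ℝ) ≤ ((Fintype.piFinset fun j : {j // j ≠ i} =>
            Fintype.piFinset (box q (g j))).card : ℝ) := by
            exact_mod_cast Finset.card_le_card h3
        _ = ∏ j : {j // j ≠ i}, ((Fintype.piFinset (box q (g j))).card : ℝ) := by
            rw [Fintype.card_piFinset, Nat.cast_prod]
        _ ≤ _ := Finset.prod_le_prod (fun j _ => Nat.cast_nonneg _) fun j _ => card_all_box hq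
    refine h4.trans (le_of_eq ?_)
    rw [Finset.prod_mul_distrib, hB]
    congr 1
    rw [← Finset.prod_subtype (Finset.univ.erase i) (fun j => by simp)
      (fun j => Real.sqrt q ^ tot (g j))]
  have h3 : (N : ℝ) ≤ C * Real.sqrt q ^ expo (g i) := Nat.floor_le (by positivity)
  calc (S.card : ℝ) ≤ N * (S.image res).card := by exact_mod_cast h1
    _ ≤ (C * Real.sqrt q ^ expo (g i)) *
        (B * ∏ j ∈ Finset.univ.erase i, Real.sqrt q ^ tot (g j)) := by
        exact mul_le_mul h3 h2 (Nat.cast_nonneg _) (by positivity)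
    _ = _ := by ring

variable (κ)

/-- **The number of the families of Weil polynomials with a relation.** -/
theorem exists_count (hg : ∀ i, 0 < g i) {D : ℕ} (hD : 0 < D) (c : ℕ) :
    ∃ C : ℝ, 0 < C ∧ ∀ (p : ℕ) [Fact p.Prime] (a : ℕ), 0 < a → ∀ (w : κ → ℕ) (ρ : κ → ℂ),
      (∀ k, w k < c ∧ IsWeilNum p a D (w k) (ρ k)) →
      ({x : ∀ i, Fin (g i) → ℤ | (∀ i, wp (p ^ a) (g i) (x i) ∈ newtonWeil p a (g i)) ∧
        Exc g (p ^ a) w ρ x}.ncard : ℝ) ≤
        C * ∑ i, Real.sqrt ((p : ℝ) ^ a) ^ expo (g i) *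
          ∏ j ∈ Finset.univ.erase i, Real.sqrt ((p : ℝ) ^ a) ^ tot (g j) := by
  classical
  set D' := D * ∏ i, (2 * g i).factorial with hD'
  have hD'0 : 0 < D' := Nat.mul_pos hD (Finset.prod_pos fun i _ => Nat.factorial_pos _)
  obtain ⟨N, hN1, hN2⟩ := exists_finite (Idx g κ) D' (c + 2) hD'0
    (fun e => ∃ i, NontrivAt g i e)
  choose! C hC hcount using fun (i : I) (e : Idx g κ → ℕ) (he : NontrivAt g i e) =>
    exists_count_one g i (hg i) e he
  set M : I → ℝ := fun i => ∑ e ∈ N.filter (fun e => NontrivAt g i e), C i e with hM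
  have hM0 : ∀ i, 0 ≤ M i := fun i => Finset.sum_nonneg fun e he =>
    (hC i e (Finset.mem_filter.1 he).2).le
  set B : ℝ := ∑ i, M i + 1 with hB
  have hB0 : 0 < B := by
    have := Finset.sum_nonneg fun i (_ : i ∈ (Finset.univ : Finset I)) => hM0 i
    linarith
  have hMB : ∀ i, M i ≤ B := by
    intro i
    have := Finset.single_le_sum (f := M) (fun i _ => hM0 i) (Finset.mem_univ i)
    linarith
  refine ⟨B, hB0, fun p _ a ha w ρ hρ => ?_⟩
  have hq : 0 < p ^ a := pow_pos (Fact.out (p := p.Prime)).pos _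
  have hcast : ((p ^ a : ℕ) : ℝ) = (p : ℝ) ^ a := by push_cast; rfl
  have hsub : {x : ∀ i, Fin (g i) → ℤ | (∀ i, wp (p ^ a) (g i) (x i) ∈ newtonWeil p a (g i)) ∧
        Exc g (p ^ a) w ρ x} ⊆ ⋃ i ∈ (Finset.univ : Finset I),
          ⋃ e ∈ N.filter (fun e => NontrivAt g i e),
        {x : ∀ i, Fin (g i) → ℤ | (∀ i, wp (p ^ a) (g i) (x i) ∈ weilPolys (p ^ a) (g i)) ∧
        RelExp (p ^ a) (wt g w) (num g (p ^ a) w ρ x) e} := by
    rintro x ⟨hx1, e, he1, he2⟩
    obtain ⟨e', he', hrel⟩ := hN2 p a ha (wt g w) (num g (p ^ a) w ρ x) (by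
      rintro (⟨⟨i, j⟩, b⟩ | ⟨k, b⟩)
      · refine ⟨by simp [wt], ?_⟩
        have h1 : IsWeilNum p a (2 * g i).factorial 1 (num g (p ^ a) w ρ x (Sum.inl (⟨i, j⟩, b))) := by
          refine isWeilNum_of_root ha (hx1 i) ((lab_root hq.ne' (x i) _).2 ⟨j, ?_⟩)
          cases b
          · left
            simp [num]
          · right
            simp [num]
        refine h1.mono (dvd_mul_of_dvd_right (Finset.dvd_prod_of_mem
          (fun i => (2 * g i).factorial) (Finset.mem_univ i)) D)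
      · refine ⟨by simp only [wt, Sum.elim_inr]; have := (hρ k).1; omega, ?_⟩
        have h1 : IsWeilNum p a D (w k) (num g (p ^ a) w ρ x (Sum.inr (k, b))) := by
          cases b
          · simpa [num] using (hρ k).2
          · have h2 := (hρ k).2.conj
            have h3 : num g (p ^ a) w ρ x (Sum.inr (k, true)) = (starRingEnd ℂ) (ρ k) := by
              simp only [num, Sum.elim_inr, if_true]
              rw [← (hρ k).2.mul_conj, mul_div_cancel_left₀ _ (hρ k).2.ne_zero]
            rw [h3]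
            exact h2
        exact h1.mono (dvd_mul_right _ _)) ⟨e, he1, he2⟩
    obtain ⟨i, hi⟩ := hN1 e' he'
    simp only [Set.mem_iUnion]
    exact ⟨i, Finset.mem_univ i, e', Finset.mem_filter.2 ⟨he', hi⟩, fun i => (hx1 i).1, hrel⟩
  have hfin : ∀ e : Idx g κ → ℕ, ({x : ∀ i, Fin (g i) → ℤ |
      (∀ i, wp (p ^ a) (g i) (x i) ∈ weilPolys (p ^ a) (g i)) ∧
        RelExp (p ^ a) (wt g w) (num g (p ^ a) w ρ x) e}).Finite := by
    intro e
    refine (Finset.finite_toSet (Fintype.piFinset fun i =>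
      Fintype.piFinset (box (p ^ a) (g i)))).subset ?_
    rintro x ⟨hx, _⟩
    rw [Finset.mem_coe, Fintype.mem_piFinset]
    exact fun i => mem_box hq.ne' (hx i)
  have h1 : ∀ i, ((⋃ e ∈ N.filter (fun e => NontrivAt g i e),
        {x : ∀ i, Fin (g i) → ℤ | (∀ i, wp (p ^ a) (g i) (x i) ∈ weilPolys (p ^ a) (g i)) ∧
        RelExp (p ^ a) (wt g w) (num g (p ^ a) w ρ x) e}).ncard : ℝ) ≤
      M i * (Real.sqrt ((p : ℝ) ^ a) ^ expo (g i) *
          ∏ j ∈ Finset.univ.erase i, Real.sqrt ((p : ℝ) ^ a) ^ tot (g j)) := by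
    intro i
    have h2 := Finset.set_ncard_biUnion_le (N.filter (fun e => NontrivAt g i e))
      (fun e => {x : ∀ i, Fin (g i) → ℤ | (∀ i, wp (p ^ a) (g i) (x i) ∈ weilPolys (p ^ a) (g i)) ∧
        RelExp (p ^ a) (wt g w) (num g (p ^ a) w ρ x) e})
    refine (Nat.cast_le.2 h2).trans ?_
    rw [hM, Finset.sum_mul, Nat.cast_sum]
    refine Finset.sum_le_sum fun e he => ?_
    have h3 := hcount i e (Finset.mem_filter.1 he).2 (p ^ a) hq w ρ
    rw [hcast] at h3
    exact h3
  have h2 := Finset.set_ncard_biUnion_le (Finset.univ : Finset I) (fun i =>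
    ⋃ e ∈ N.filter (fun e => NontrivAt g i e),
        {x : ∀ i, Fin (g i) → ℤ | (∀ i, wp (p ^ a) (g i) (x i) ∈ weilPolys (p ^ a) (g i)) ∧
        RelExp (p ^ a) (wt g w) (num g (p ^ a) w ρ x) e})
  have h3 := Set.ncard_le_ncard hsub (Set.Finite.biUnion (Finset.finite_toSet _) fun i _ =>
    Set.Finite.biUnion (Finset.finite_toSet _) fun e _ => hfin e)
  refine (Nat.cast_le.2 (h3.trans h2)).trans ?_
  rw [Nat.cast_sum, Finset.mul_sum]
  refine Finset.sum_le_sum fun i _ => (h1 i).trans ?_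
  refine mul_le_mul_of_nonneg_right (hMB i) ?_
  positivity

end

end Pool.Agent.H857.PA
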