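import Pool.Agent.H857.PA.Newton

/-!
# The number of families of Weil polynomials with a relation
-/

set_option autoImplicit false
set_option linter.unusedSectionVars false

namespace Pool.Agent.H857.PA

open Polynomial Pool.Agent.W521.Descent Pool.Agent.X297.UB Pool.Agent.H857.PB

/-- One of the roots in each of the pairs of conjugate roots. -/
noncomputable def labA (q g : ℕ) (x : Fin g → ℤ) : Fin g → ℂ :=
  (exists_hp (K := ℂ) (q := q) x).choose

/-- The conjugates. -/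
noncomputable def labB (q g : ℕ) (x : Fin g → ℤ) : Fin g → ℂ :=
  (exists_hp (K := ℂ) (q := q) x).choose_spec.choose

lemma lab_mul (q g : ℕ) (x : Fin g → ℤ) (i : Fin g) : labA q g x i * labB q g x i = q :=
  (exists_hp (K := ℂ) (q := q) x).choose_spec.choose_spec.1 i

lemma lab_hp (q g : ℕ) (x : Fin g → ℤ) : hp (fun i => (x i : ℂ)) =
    ∏ j, (Polynomial.X - C (labA q g x j + labB q g x j)) :=
  (exists_hp (K := ℂ) (q := q) x).choose_spec.choose_spec.2

lemma lab_root {q g : ℕ} (hq : q ≠ 0) (x : Fin g → ℤ) (z : ℂ) :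
    aeval z (wp q g x) = 0 ↔ ∃ j, z = labA q g x j ∨ z = labB q g x j :=
  root_iff_of_hp hq (lab_mul q g x) (lab_hp q g x) z

section

variable {I κ : Type} [Fintype I] [Fintype κ] (g : I → ℕ)

/-- The indices: pairs of conjugate roots for all the members of the family, and pairs of conjugate
further numbers. -/
abbrev Idx (κ : Type) : Type := ((Σ i, Fin (g i)) × Bool) ⊕ (κ × Bool)

/-- The numbers. -/
noncomputable def num (q : ℕ) (w : κ → ℕ) (ρ : κ → ℂ) (x : ∀ i, Fin (g i) → ℤ) : Idx g κ → ℂ :=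
  Sum.elim (fun y => if y.2 then labB q (g y.1.1) (x y.1.1) y.1.2
    else labA q (g y.1.1) (x y.1.1) y.1.2)
    (fun y => if y.2 then (q : ℂ) ^ (w y.1) / ρ y.1 else ρ y.1)

/-- The weights. -/
def wt (w : κ → ℕ) : Idx g κ → ℕ := Sum.elim (fun _ => 1) (fun y => w y.1)

/-- The exponents are not trivial at `i`. -/
def NontrivAt (i : I) (e : Idx g κ → ℕ) : Prop :=
  ∃ j : Fin (g i), e (Sum.inl (⟨i, j⟩, false)) ≠ e (Sum.inl (⟨i, j⟩, true))

/-- There is a relation which is not trivial. -/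
def Exc (q : ℕ) (w : κ → ℕ) (ρ : κ → ℂ) (x : ∀ i, Fin (g i) → ℤ) : Prop :=
  ∃ e, (∃ i, NontrivAt g i e) ∧ RelExp q (wt g w) (num g q w ρ x) e

/-- The part of the product. -/
noncomputable def part (q : ℕ) (i : I) (e : Idx g κ → ℕ) (y : Fin (g i) → ℤ) : ℂ :=
  ∏ j, labA q (g i) y j ^ e (Sum.inl (⟨i, j⟩, false)) *
    labB q (g i) y j ^ e (Sum.inl (⟨i, j⟩, true))

lemma prod_num (q : ℕ) (w : κ → ℕ) (ρ : κ → ℂ) (x : ∀ i, Fin (g i) → ℤ) (e : Idx g κ → ℕ) :
    ∏ t, num g q w ρ x t ^ e t = (∏ i, part g q i e (x i)) *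
      ∏ k, (ρ k ^ e (Sum.inr (k, false)) * ((q : ℂ) ^ (w k) / ρ k) ^ e (Sum.inr (k, true))) := by
  rw [Fintype.prod_sum_type, Fintype.prod_prod_type, Fintype.prod_prod_type, Fintype.prod_sigma]
  congr 1
  · refine Finset.prod_congr rfl fun i _ => ?_
    rw [part]
    refine Finset.prod_congr rfl fun j _ => ?_
    rw [Fintype.prod_bool, mul_comm]
    simp [num]
  · refine Finset.prod_congr rfl fun k _ => ?_
    rw [Fintype.prod_bool, mul_comm]
    simp [num]

/-- The exponents of the relation. -/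
def mm (i : I) (e : Idx g κ → ℕ) (j : Fin (g i)) : ℕ :=
  (e (Sum.inl (⟨i, j⟩, false)) - e (Sum.inl (⟨i, j⟩, true))) +
    (e (Sum.inl (⟨i, j⟩, true)) - e (Sum.inl (⟨i, j⟩, false)))

/-- The value of the relation. -/
noncomputable def vv (q : ℕ) (i : I) (e : Idx g κ → ℕ) (y : Fin (g i) → ℤ) : ℂ :=
  ∏ j, (if e (Sum.inl (⟨i, j⟩, true)) ≤ e (Sum.inl (⟨i, j⟩, false)) then labA q (g i) y j
    else labB q (g i) y j) ^ mm g i e j

lemma part_eq (q : ℕ) (i : I) (e : Idx g κ → ℕ) (y : Fin (g i) → ℤ) :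
    part g q i e y = (q : ℂ) ^ (∑ j, min (e (Sum.inl (⟨i, j⟩, false)))
      (e (Sum.inl (⟨i, j⟩, true)))) * vv g q i e y := by
  rw [part, vv, ← Finset.prod_pow_eq_pow_sum, ← Finset.prod_mul_distrib]
  refine Finset.prod_congr rfl fun j _ => ?_
  rw [mm, ← lab_mul q (g i) y j]
  set s := e (Sum.inl (⟨i, j⟩, false)) with hs
  set t := e (Sum.inl (⟨i, j⟩, true)) with ht
  split_ifs with h
  · rw [min_eq_right h, Nat.sub_eq_zero_of_le h, add_zero, mul_pow]
    have h1 : s = t + (s - t) := by omega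
    conv_lhs => rw [h1, pow_add]
    ring
  · have h' : s ≤ t := by omega
    rw [min_eq_left h', Nat.sub_eq_zero_of_le h', zero_add, mul_pow]
    have h1 : t = s + (t - s) := by omega
    conv_lhs => rw [h1, pow_add]
    ring

lemma vv_rel (q : ℕ) (i : I) (e : Idx g κ → ℕ) (y : Fin (g i) → ℤ) :
    Rel (mm g i e) (q : ℂ) (vv g q i e y) (fun k => (y k : ℂ)) := by
  refine ⟨fun j => if e (Sum.inl (⟨i, j⟩, true)) ≤ e (Sum.inl (⟨i, j⟩, false)) then
      labA q (g i) y j else labB q (g i) y j,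
    fun j => if e (Sum.inl (⟨i, j⟩, true)) ≤ e (Sum.inl (⟨i, j⟩, false)) then
      labB q (g i) y j else labA q (g i) y j, fun j => ?_, ?_, rfl⟩
  · have h1 := lab_mul q (g i) y j
    beta_reduce
    split_ifs
    · exact h1
    · rw [mul_comm]
      exact h1
  · rw [lab_hp q (g i) y]
    refine Finset.prod_congr rfl fun j _ => ?_
    beta_reduce
    split_ifs
    · rfl
    · rw [add_comm]

lemma mm_ne {i : I} {e : Idx g κ → ℕ} (h : NontrivAt g i e) : ∃ j, mm g i e j ≠ 0 := by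
  obtain ⟨j, hj⟩ := h
  refine ⟨j, ?_⟩
  rw [mm]
  omega

/-- **The fibres.** -/
theorem exists_fibre_fam [DecidableEq I] (i : I) (hg : 0 < g i) (e : Idx g κ → ℕ)
    (he : NontrivAt g i e) :
    ∃ C : ℝ, 0 < C ∧ ∀ q : ℕ, 0 < q → ∀ (w : κ → ℕ) (ρ : κ → ℂ) (x : ∀ i, Fin (g i) → ℤ)
      (T : Set (Fin (g i) → ℤ)),
      (∀ y ∈ T, wp q (g i) y ∈ weilPolys q (g i) ∧
        RelExp q (wt g w) (num g q w ρ (Function.update x i y)) e) →
      (T.ncard : ℝ) ≤ C * Real.sqrt q ^ expo (g i) := by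
  have hm := mm_ne g he
  have hrel := vv_rel g (κ := κ)
  have hpart := part_eq g (κ := κ)
  obtain ⟨C, hC, h⟩ : ∃ C : ℝ, 0 < C ∧ ∀ q : ℕ, 0 < q → ∀ (T : Set (Fin (g i) → ℤ))
      (v : (Fin (g i) → ℤ) → ℂ), (∀ x ∈ T, wp q (g i) x ∈ weilPolys q (g i)) →
      (∀ x ∈ T, Rel (mm g i e) (q : ℂ) (v x) (fun i => (x i : ℂ))) →
      (∀ x ∈ T, ∀ y ∈ T, ∃ N, 0 < N ∧ (v x / v y) ^ N = 1) →
      (T.ncard : ℝ) ≤ C * Real.sqrt q ^ expo (g i) := by
    generalize mm g i e = m at hm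
    generalize g i = n at *
    obtain ⟨n, rfl⟩ : ∃ n', n = n' + 1 := ⟨n - 1, by omega⟩
    exact exists_fibre m hm
  refine ⟨C, hC, fun q hq w ρ x T hT => ?_⟩
  have hq' : (q : ℂ) ≠ 0 := by exact_mod_cast hq.ne'
  refine h q hq T (vv g q i e) (fun y hy => (hT y hy).1) (fun y _ => hrel q i e y) ?_
  intro y hy y' hy'
  obtain ⟨j, hj, s, hs, h1⟩ := (hT y hy).2
  obtain ⟨j', hj', s', hs', h1'⟩ := (hT y' hy').2
  obtain rfl : j = j' := by omega
  set M := ∑ j, min (e (Sum.inl (⟨i, j⟩, false))) (e (Sum.inl (⟨i, j⟩, true))) with hM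
  set Rest : ℂ := (∏ i' ∈ Finset.univ \ {i}, part g q i' e (x i')) *
      ∏ k, (ρ k ^ e (Sum.inr (k, false)) * ((q : ℂ) ^ (w k) / ρ k) ^ e (Sum.inr (k, true)))
    with hRest
  have key : ∀ y, ∏ t, num g q w ρ (Function.update x i y) t ^ e t =
      ((q : ℂ) ^ M * Rest) * vv g q i e y := by
    intro y
    rw [prod_num]
    have h2 : (fun i' => part g q i' e (Function.update x i y i')) =
        Function.update (fun i' => part g q i' e (x i')) i (part g q i e y) := by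
      funext i'
      exact Function.apply_update (fun i' z => part g q i' e z) x i y i'
    have h3 : ∏ i', part g q i' e (Function.update x i y i') =
        part g q i e y * ∏ i' ∈ Finset.univ \ {i}, part g q i' e (x i') := by
      have h4 := Finset.prod_update_of_mem (Finset.mem_univ i) (fun i' => part g q i' e (x i'))
        (part g q i e y)
      rw [← h4, ← h2]
    rw [h3, hpart q i e y, hRest, ← hM]
    ring
  rw [key] at h1 h1'
  have hne : ((q : ℂ) ^ j) ^ (s * s') ≠ 0 := pow_ne_zero _ (pow_ne_zero _ hq')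
  have h5 : (((q : ℂ) ^ M * Rest) * vv g q i e y) ^ (s * s') = ((q : ℂ) ^ j) ^ (s * s') := by
    rw [pow_mul, h1, ← pow_mul]
  have h6 : (((q : ℂ) ^ M * Rest) * vv g q i e y') ^ (s * s') = ((q : ℂ) ^ j) ^ (s * s') := by
    rw [mul_comm s s', pow_mul, h1', ← pow_mul]
  have h7 : ((q : ℂ) ^ M * Rest) ^ (s * s') ≠ 0 := by
    intro h0
    rw [mul_pow, h0, zero_mul] at h5
    exact hne h5.symm
  have h8 : vv g q i e y' ^ (s * s') ≠ 0 := by
    intro h0
    rw [mul_pow, h0, mul_zero] at h6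
    exact hne h6.symm
  refine ⟨s * s', Nat.mul_pos hs hs', ?_⟩
  rw [div_pow, div_eq_one_iff_eq h8]
  apply mul_left_cancel₀ h7
  rw [← mul_pow, ← mul_pow, h5, h6]

end

end Pool.Agent.H857.PA
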