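import Mathlib

/-!
# Finiteness of the roots of unity of bounded degree
-/

set_option autoImplicit false

namespace Pool.Agent.H857.PA

open Polynomial

/-- The roots of unity whose degree over the rational numbers is at most `K`. -/
def rou (K : ℕ) : Set ℂ := {z | (∃ n, 0 < n ∧ z ^ n = 1) ∧ (minpoly ℚ z).natDegree ≤ K}

theorem rou_finite (K : ℕ) : (rou K).Finite := by
  classical
  have h := bUnion_roots_finite (algebraMap ℤ ℂ) K
    (Set.finite_Icc (-(Nat.choose K (K / 2) : ℤ)) (Nat.choose K (K / 2) : ℤ))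
  refine h.subset ?_
  rintro z ⟨⟨n, hn, hz⟩, hK⟩
  have hint : IsIntegral ℤ z := by
    refine ⟨X ^ n - C 1, monic_X_pow_sub_C 1 hn.ne', ?_⟩
    simp [hz]
  have hmin := minpoly.isIntegrallyClosed_eq_field_fractions' ℚ hint
  have hdeg : (minpoly ℤ z).natDegree ≤ K := by
    rw [← (minpoly.monic hint).natDegree_map (algebraMap ℤ ℚ), ← hmin]
    exact hK
  have hdvd : minpoly ℤ z ∣ X ^ n - C 1 := by
    apply minpoly.isIntegrallyClosed_dvd hint
    simp [hz]
  simp only [Set.mem_iUnion]
  refine ⟨minpoly ℤ z, ⟨hdeg, fun i => ?_⟩, ?_⟩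
  · have h1 := coeff_bdd_of_roots_le (algebraMap ℤ ℂ) (p := minpoly ℤ z) (d := K) (B := 1)
      (minpoly.monic hint) (IsAlgClosed.splits _) hdeg (fun w hw => by
        have h2 := (mem_roots'.1 hw).2
        have h3 : ((X ^ n - C 1 : ℤ[X]).map (algebraMap ℤ ℂ)).IsRoot w :=
          h2.dvd (Polynomial.map_dvd _ hdvd)
        have h4 : w ^ n = 1 := by
          rw [IsRoot.def, eval_map] at h3
          simpa [sub_eq_zero] using h3
        have h5 : ‖w‖ ^ n = 1 := by rw [← norm_pow, h4, norm_one]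
        exact le_of_eq ((pow_eq_one_iff_of_nonneg (norm_nonneg w) hn.ne').1 h5)) i
    rw [coeff_map, eq_intCast (algebraMap ℤ ℂ), Complex.norm_intCast, max_self, one_pow,
      one_mul] at h1
    have h2 : |(minpoly ℤ z).coeff i| ≤ (Nat.choose K (K / 2) : ℤ) := by exact_mod_cast h1
    exact abs_le.1 h2
  · rw [Finset.mem_coe, Multiset.mem_toFinset, mem_roots']
    refine ⟨((minpoly.monic hint).map _).ne_zero, ?_⟩
    rw [IsRoot.def, eval_map]
    exact minpoly.aeval ℤ z

/-- The degree of a field generated by finitely many elements. -/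
theorem finrank_adjoin_le {ι : Type*} (x : ι → ℂ) (d : ℕ) (hx : ∀ i, IsIntegral ℚ (x i))
    (hd : ∀ i, (minpoly ℚ (x i)).natDegree ≤ d) (s : Finset ι) :
    FiniteDimensional ℚ (IntermediateField.adjoin ℚ (x '' s)) ∧
      Module.finrank ℚ (IntermediateField.adjoin ℚ (x '' s)) ≤ d ^ s.card := by
  classical
  induction s using Finset.induction_on with
  | empty =>
    rw [Finset.coe_empty, Set.image_empty, IntermediateField.adjoin_empty, Finset.card_empty,
      pow_zero]
    exact ⟨inferInstance, le_of_eq IntermediateField.finrank_bot⟩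
  | insert a s ha ih =>
    rw [Finset.coe_insert, Set.image_insert_eq, Set.insert_eq, IntermediateField.adjoin_union,
      Finset.card_insert_of_notMem ha]
    have h1 : FiniteDimensional ℚ (IntermediateField.adjoin ℚ {x a}) :=
      IntermediateField.adjoin.finiteDimensional (hx a)
    have h2 := ih.1
    refine ⟨inferInstance, ?_⟩
    refine (IntermediateField.finrank_sup_le _ _).trans ?_
    rw [IntermediateField.adjoin.finrank (hx a), pow_succ, mul_comm]
    exact Nat.mul_le_mul ih.2 (hd a)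

/-- An element of a field of small degree has small degree. -/
theorem natDegree_minpoly_le (F : IntermediateField ℚ ℂ) [FiniteDimensional ℚ F] {z : ℂ}
    (hz : z ∈ F) : (minpoly ℚ z).natDegree ≤ Module.finrank ℚ F := by
  have h1 : (minpoly ℚ (⟨z, hz⟩ : F)).natDegree ≤ Module.finrank ℚ F := minpoly.natDegree_le _
  have h2 : minpoly ℚ (algebraMap F ℂ ⟨z, hz⟩) = minpoly ℚ (⟨z, hz⟩ : F) :=
    minpoly.algebraMap_eq (algebraMap F ℂ).injective _
  have h3 : algebraMap F ℂ ⟨z, hz⟩ = z := rfl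
  rw [h3] at h2
  rwa [h2]

lemma root_data {F : ℤ[X]} (hF : F.Monic) {z : ℂ} (hz : aeval z F = 0) :
    IsIntegral ℚ z ∧ (minpoly ℚ z).natDegree ≤ F.natDegree := by
  have h1 : aeval z (F.map (algebraMap ℤ ℚ)) = 0 := by
    rw [aeval_map_algebraMap]
    exact hz
  refine ⟨⟨F.map (algebraMap ℤ ℚ), hF.map _, h1⟩, ?_⟩
  have h2 := natDegree_le_of_dvd (minpoly.dvd ℚ z h1) (hF.map _).ne_zero
  rwa [hF.natDegree_map] at h2

/-- A quotient of products of powers of roots of two polynomials has bounded degree. -/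
theorem ratio_degree {g : ℕ} {f f' : ℤ[X]} (hf : f.Monic) (hf' : f'.Monic)
    (hd : f.natDegree = 2 * g) (hd' : f'.natDegree = 2 * g) {a a' : Fin g → ℂ}
    (ha : ∀ i, aeval (a i) f = 0) (ha' : ∀ i, aeval (a' i) f' = 0) (m : Fin g → ℕ) :
    (minpoly ℚ ((∏ i, a i ^ m i) / ∏ i, a' i ^ m i)).natDegree ≤ (2 * g) ^ (2 * g) := by
  classical
  have hx : ∀ i, IsIntegral ℚ (Sum.elim a a' i) ∧
      (minpoly ℚ (Sum.elim a a' i)).natDegree ≤ 2 * g := by
    rintro (i | i)
    · have := root_data hf (ha i)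
      rwa [hd] at this
    · have := root_data hf' (ha' i)
      rwa [hd'] at this
  obtain ⟨h1, h2⟩ := finrank_adjoin_le (Sum.elim a a') (2 * g) (fun i => (hx i).1)
    (fun i => (hx i).2) Finset.univ
  have h3 : (Finset.univ : Finset (Fin g ⊕ Fin g)).card = 2 * g := by
    rw [Finset.card_univ, Fintype.card_sum, Fintype.card_fin, ← two_mul]
  rw [h3] at h2
  have hmem : ∀ i, Sum.elim a a' i ∈
      IntermediateField.adjoin ℚ (Sum.elim a a' '' (Finset.univ : Finset (Fin g ⊕ Fin g))) :=
    fun i => IntermediateField.subset_adjoin _ _ ⟨i, by simp, rfl⟩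
  have h4 : (∏ i, a i ^ m i) / ∏ i, a' i ^ m i ∈
      IntermediateField.adjoin ℚ (Sum.elim a a' '' (Finset.univ : Finset (Fin g ⊕ Fin g))) :=
    div_mem (prod_mem fun i _ => pow_mem (hmem (Sum.inl i)) _)
      (prod_mem fun i _ => pow_mem (hmem (Sum.inr i)) _)
  exact (natDegree_minpoly_le _ h4).trans h2

end Pool.Agent.H857.PA
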