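import Pool.Agent.H857.PB.Size
import Pool.Agent.H857.PA.Xi
import Pool.Graph.R_seed8.W521.Count

/-!
# The number of Weil polynomials with proportional relations
-/

set_option autoImplicit false

namespace Pool.Agent.H857.PA

open Polynomial Pool.Agent.W521.Frob Pool.Agent.W521.Descent Pool.Agent.W521.Density
  Pool.Agent.W521.Count Pool.Agent.H857.PB

/-- The Weil polynomial with the point `x`. -/
noncomputable def wp (q g : ℕ) (x : Fin g → ℤ) : ℤ[X] := weil q (mkPoly g x)

lemma wp_monic (q g : ℕ) (x : Fin g → ℤ) : (wp q g x).Monic := weil_monic q (mkPoly_monic g x)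

lemma wp_natDegree (q g : ℕ) (x : Fin g → ℤ) : (wp q g x).natDegree = 2 * g := by
  rw [wp, weil_natDegree q (mkPoly_monic g x), mkPoly_natDegree]

lemma wp_injective {q : ℕ} (hq : q ≠ 0) (g : ℕ) : Function.Injective (wp q g) := by
  intro x y h
  exact mkPoly_injective g
    (W521.Lower.weil_injective hq (mkPoly_natDegree g x) (mkPoly_natDegree g y) h)

lemma hp_eq_map {K : Type} [Field K] {g : ℕ} (x : Fin g → ℤ) :
    hp (fun i => (x i : K)) = (mkPoly g x).map (algebraMap ℤ K) := by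
  rw [map_mkPoly]
  rfl

/-- The roots of a Weil polynomial in terms of the factorisation. -/
lemma root_iff_of_hp {K : Type} [Field K] [CharZero K] {q g : ℕ} (hq : q ≠ 0) {x : Fin g → ℤ}
    {a b : Fin g → K} (hab : ∀ i, a i * b i = q)
    (hx : hp (fun i => (x i : K)) = ∏ j, (Polynomial.X - C (a j + b j))) (z : K) :
    aeval z (wp q g x) = 0 ↔ ∃ j, z = a j ∨ z = b j := by
  have hq' : (q : K) ≠ 0 := by exact_mod_cast hq
  have key : ∀ z : K, z ≠ 0 → (aeval (z + q / z) (mkPoly g x) = 0 ↔ ∃ j, z = a j ∨ z = b j) := by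
    intro z hz
    have h1 : aeval (z + q / z) (mkPoly g x) = ∏ j, (z + q / z - (a j + b j)) := by
      have h2 := congrArg (Polynomial.eval (z + q / z)) hx
      rw [hp_eq_map, eval_map, eval_prod] at h2
      rw [aeval_def, h2]
      simp
    rw [h1, Finset.prod_eq_zero_iff]
    refine exists_congr fun j => ?_
    have h3 : z * (z + q / z - (a j + b j)) = (z - a j) * (z - b j) := by
      have h4 : z * (q / z) = a j * b j := by rw [hab, mul_div_cancel₀ _ hz]
      linear_combination h4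
    constructor
    · rintro ⟨-, h⟩
      rw [h, mul_zero] at h3
      rcases mul_eq_zero.1 h3.symm with h5 | h5
      · exact Or.inl (sub_eq_zero.1 h5)
      · exact Or.inr (sub_eq_zero.1 h5)
    · intro h
      refine ⟨Finset.mem_univ _, ?_⟩
      have h5 : (z - a j) * (z - b j) = 0 := by
        rcases h with h | h <;> rw [h] <;> ring
      rw [h5] at h3
      exact (mul_eq_zero.1 h3).resolve_left hz
  rw [wp, root_iff hq (mkPoly_monic g x)]
  constructor
  · rintro ⟨h0, h1⟩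
    exact (key z h0).1 h1
  · rintro ⟨j, hj⟩
    have hz : z ≠ 0 := by
      rintro rfl
      have h1 := hab j
      rcases hj with h | h
      · rw [← h, zero_mul] at h1
        exact hq' h1.symm
      · rw [← h, mul_zero] at h1
        exact hq' h1.symm
    exact ⟨hz, (key z hz).2 ⟨j, hj⟩⟩

/-- The factorisation exists over an algebraically closed field. -/
lemma exists_hp {K : Type} [Field K] [IsAlgClosed K] [CharZero K] {q g : ℕ} (x : Fin g → ℤ) :
    ∃ a b : Fin g → K, (∀ i, a i * b i = q) ∧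
      hp (fun i => (x i : K)) = ∏ j, (Polynomial.X - C (a j + b j)) := by
  obtain ⟨θ, hθ⟩ : ∃ θ : Fin g → K, hp (fun i => (x i : K)) =
      ∏ j, (Polynomial.X - C (θ j)) := by
    set P : K[X] := hp (fun i => (x i : K)) with hP
    have h1 : P.roots.card = g := by
      rw [← (IsAlgClosed.splits P).natDegree_eq_card_roots, hP, hp_natDegree]
    have h2 : P = (P.roots.map fun a => Polynomial.X - C a).prod :=
      (IsAlgClosed.splits P).eq_prod_roots_of_monic (hp_monic _)
    set l := P.roots.toList with hl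
    have h3 : l.length = g := by rw [hl, Multiset.length_toList, h1]
    refine ⟨fun j => l.get (j.cast h3.symm), ?_⟩
    rw [h2]
    have h4 : P.roots = (l : Multiset K) := by rw [hl, Multiset.coe_toList]
    conv_lhs => rw [h4]
    rw [Multiset.map_coe, Multiset.prod_coe, ← List.prod_ofFn]
    congr 1
    apply List.ext_get
    · simp [h3]
    · intro n h5 h6
      simp
  choose a ha using fun j => (by
    obtain ⟨s, hs⟩ := IsAlgClosed.exists_pow_nat_eq ((θ j) ^ 2 - 4 * q : K) two_pos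
    exact ⟨(θ j + s) / 2, by linear_combination (1 / 4 : K) * hs⟩ :
      ∃ α : K, α ^ 2 + q = θ j * α)
  refine ⟨a, fun j => θ j - a j, fun j => ?_, ?_⟩
  · linear_combination -(ha j)
  · rw [hθ]
    refine Finset.prod_congr rfl fun j _ => ?_
    congr 2
    ring

/-- The box. -/
noncomputable def box (q g : ℕ) (k : Fin g) : Finset ℤ := Finset.Icc (-(bd q g k : ℤ)) (bd q g k)

lemma mem_box {q g : ℕ} (hq : q ≠ 0) {x : Fin g → ℤ} (hx : wp q g x ∈ weilPolys q g) :
    x ∈ Fintype.piFinset (box q g) := by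
  rw [Fintype.mem_piFinset]
  intro k
  have h1 := coeff_le_bd hq (mkPoly_monic g x) (mkPoly_natDegree g x) hx k
  rw [mkPoly_coeff] at h1
  rw [box, Finset.mem_Icc]
  exact abs_le.1 h1

lemma card_box {q g : ℕ} (hq : 0 < q) (k : Fin g) :
    ((box q g k).card : ℝ) ≤ (3 * 4 ^ g) * Real.sqrt q ^ (g - (k : ℕ)) := by
  have h1 : (box q g k).card = 2 * bd q g k + 1 := by
    rw [box, Int.card_Icc]
    omega
  have h2 := bd_le q g k
  have h3 : (1 : ℝ) ≤ 4 ^ g * Real.sqrt q ^ (g - (k : ℕ)) := by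
    have h4 : (1 : ℝ) ≤ 4 ^ g := one_le_pow₀ (by norm_num)
    have h5 : (1 : ℝ) ≤ Real.sqrt q ^ (g - (k : ℕ)) := by
      refine one_le_pow₀ ?_
      rw [Real.one_le_sqrt]
      exact_mod_cast hq
    nlinarith
  rw [h1]
  push_cast
  linarith

/-- **The number of points with proportional relations.** -/
theorem exists_fibre {n : ℕ} (m : Fin (n + 1) → ℕ) (hm : ∃ i, m i ≠ 0) :
    ∃ C : ℝ, 0 < C ∧ ∀ q : ℕ, 0 < q → ∀ (T : Set (Fin (n + 1) → ℤ)) (v : (Fin (n + 1) → ℤ) → ℂ),
      (∀ x ∈ T, wp q (n + 1) x ∈ weilPolys q (n + 1)) →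
      (∀ x ∈ T, Rel m (q : ℂ) (v x) (fun i => (x i : ℂ))) →
      (∀ x ∈ T, ∀ y ∈ T, ∃ N, 0 < N ∧ (v x / v y) ^ N = 1) →
      (T.ncard : ℝ) ≤ C * Real.sqrt q ^ expo (n + 1) := by
  classical
  obtain ⟨P, hP⟩ := exists_univ m
  have hP' : IsUniv P m := hP
  set R := (rou_finite ((2 * (n + 1)) ^ (2 * (n + 1)))).toFinset with hR
  set B : ℝ := (n + 1) * (P.totalDegree + 1) * (3 * 4 ^ (n + 1)) ^ (n + 1) with hB
  have hB0 : 0 < B := by positivity
  refine ⟨R.card * B + 1, by positivity, ?_⟩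
  intro q hq T v hT hrel hprop
  have hs : (1 : ℝ) ≤ Real.sqrt q := by
    rw [Real.one_le_sqrt]
    exact_mod_cast hq
  have hs0 : (0 : ℝ) < Real.sqrt q ^ expo (n + 1) := by positivity
  have hq' : (q : ℂ) ≠ 0 := by exact_mod_cast hq.ne'
  rcases T.eq_empty_or_nonempty with rfl | ⟨x0, hx0⟩
  · rw [Set.ncard_empty, Nat.cast_zero]
    positivity
  have hv0 : ∀ x ∈ T, v x ≠ 0 := by
    intro x hx
    obtain ⟨a, b, hab, -, hv⟩ := hrel x hx
    rw [← hv]
    refine Finset.prod_ne_zero_iff.2 fun i _ => pow_ne_zero _ ?_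
    intro h0
    have h1 := hab i
    rw [h0, zero_mul] at h1
    exact hq' h1.symm
  have hsub : T ⊆ ((R.biUnion fun ξ => zeros (box q (n + 1)) P (q : ℂ) (v x0 * ξ) :
      Finset (Fin (n + 1) → ℤ)) : Set (Fin (n + 1) → ℤ)) := by
    intro x hx
    rw [Finset.mem_coe, Finset.mem_biUnion]
    refine ⟨v x / v x0, ?_, ?_⟩
    · rw [hR, Set.Finite.mem_toFinset]
      refine ⟨hprop x hx x0 hx0, ?_⟩
      obtain ⟨a, b, hab, hpx, hv⟩ := hrel x hx
      obtain ⟨a', b', hab', hpx', hv'⟩ := hrel x0 hx0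
      rw [← hv, ← hv']
      exact ratio_degree (wp_monic q (n + 1) x) (wp_monic q (n + 1) x0) (wp_natDegree _ _ _)
        (wp_natDegree _ _ _)
        (fun i => (root_iff_of_hp hq.ne' hab hpx _).2 ⟨i, Or.inl rfl⟩)
        (fun i => (root_iff_of_hp hq.ne' hab' hpx' _).2 ⟨i, Or.inl rfl⟩) m
    · rw [zeros, Finset.mem_filter, mul_div_cancel₀ _ (hv0 x0 hx0)]
      exact ⟨mem_box hq.ne' (hT x hx), val_of_rel hP' (hrel x hx)⟩
  have h1 : T.ncard ≤ ∑ ξ ∈ R, (zeros (box q (n + 1)) P (q : ℂ) (v x0 * ξ)).card := by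
    refine (Set.ncard_le_ncard hsub (Finset.finite_toSet _)).trans ?_
    rw [Set.ncard_coe_finset]
    exact Finset.card_biUnion_le
  have h2 : ∀ ξ ∈ R, ((zeros (box q (n + 1)) P (q : ℂ) (v x0 * ξ)).card : ℝ) ≤
      B * Real.sqrt q ^ expo (n + 1) := by
    intro ξ hξ
    have hξ0 : ξ ≠ 0 := by
      rw [hR, Set.Finite.mem_toFinset] at hξ
      obtain ⟨⟨N, hN, h3⟩, -⟩ := hξ
      rintro rfl
      rw [zero_pow hN.ne'] at h3
      exact zero_ne_one h3
    have h4 : (1 : ℝ) ≤ 3 * 4 ^ (n + 1) := by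
      have : (1 : ℝ) ≤ 4 ^ (n + 1) := one_le_pow₀ (by norm_num)
      linarith
    exact card_zeros_le hm hP' h4 hs (fun i => card_box hq i) hq'
      (mul_ne_zero (hv0 x0 hx0) hξ0)
  calc (T.ncard : ℝ) ≤ ∑ ξ ∈ R, ((zeros (box q (n + 1)) P (q : ℂ) (v x0 * ξ)).card : ℝ) := by
        exact_mod_cast h1
    _ ≤ ∑ _ξ ∈ R, B * Real.sqrt q ^ expo (n + 1) := Finset.sum_le_sum h2
    _ = (R.card * B) * Real.sqrt q ^ expo (n + 1) := by
        rw [Finset.sum_const, nsmul_eq_mul]
        ring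
    _ ≤ (R.card * B + 1) * Real.sqrt q ^ expo (n + 1) := by
        refine mul_le_mul_of_nonneg_right (by linarith) hs0.le

end Pool.Agent.H857.PA
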