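import Pool.Agent.H857.PA.CountFam
import Pool.Graph.R_seed8.Y1.CT.Kun

/-!
# Families without relations
-/

set_option autoImplicit false
set_option linter.unusedSectionVars false

namespace Pool.Agent.H857.PA

open Polynomial Pool.Agent.W521.Descent Pool.Agent.X297.UB Pool.Agent.H857.PB
  Pool.Agent.Y1.CT Pool.Agent.W484.HS

variable {I κ : Type} [Fintype I] [Fintype κ] (g : I → ℕ)

/-- Some power of `x` is a product of powers, with integral exponents, of the numbers `ρ k` and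
`q`. -/
def Gen (q : ℕ) (ρ : κ → ℂ) (x : ℂ) : Prop :=
  ∃ N : ℕ, 0 < N ∧ ∃ (n : κ → ℤ) (t : ℤ), x ^ N = (∏ k, ρ k ^ n k) * (q : ℂ) ^ t

lemma norm_num {q : ℕ} (hq : q ≠ 0) {w : κ → ℕ} {ρ : κ → ℂ} (hρ : ∀ k, ‖ρ k‖ ^ 2 = (q : ℝ) ^ w k)
    {x : ∀ i, Fin (g i) → ℤ} (hx : ∀ i, wp q (g i) (x i) ∈ weilPolys q (g i)) (t : Idx g κ) :
    ‖num g q w ρ x t‖ ^ 2 = (q : ℝ) ^ wt g w t := by
  have hq' : (q : ℝ) ≠ 0 := by exact_mod_cast hq
  rcases t with ⟨⟨i, j⟩, b⟩ | ⟨k, b⟩
  · have h1 : aeval (num g q w ρ x (Sum.inl (⟨i, j⟩, b))) (wp q (g i) (x i)) = 0 := by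
      refine (lab_root hq (x i) _).2 ⟨j, ?_⟩
      cases b
      · left
        simp [num]
      · right
        simp [num]
    rw [(hx i).2.2.2 _ h1]
    simp [wt]
  · cases b
    · simpa [num, wt] using hρ k
    · simp only [num, wt, Sum.elim_inr, if_true]
      rw [norm_div, div_pow, hρ k, norm_pow, Complex.norm_natCast, ← pow_mul, mul_two, pow_add,
        mul_div_cancel_left₀]
      exact pow_ne_zero _ hq'

/-- A family is without relations if there are no relations for the canonical labels. -/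
theorem noRel_of_not_exc {q : ℕ} (hq : 1 < q) {w : κ → ℕ} {ρ : κ → ℂ}
    (hρ : ∀ k, ‖ρ k‖ ^ 2 = (q : ℝ) ^ w k)
    {x : ∀ i, Fin (g i) → ℤ} (hx : ∀ i, wp q (g i) (x i) ∈ weilPolys q (g i))
    (hexc : ¬ Exc g q w ρ x) : NoRel (fun i => wp q (g i) (x i)) q (Gen q ρ) := by
  classical
  have hq0 : q ≠ 0 := by omega
  have hqc : (q : ℂ) ≠ 0 := by exact_mod_cast hq0
  have hρ0 : ∀ k, ρ k ≠ 0 := by
    intro k h0
    have h1 := hρ k
    rw [h0, norm_zero, zero_pow two_ne_zero] at h1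
    have h2 : (0 : ℝ) < (q : ℝ) ^ w k := by positivity
    exact h2.ne h1
  refine ⟨fun i => wp_monic q (g i) (x i), ⟨1, one_pos, 0, 0, by simp⟩, ?_⟩
  intro s hs ρ0 ⟨N, hN, n, t, hNt⟩ m c s' hs' hm ys hlen hrel hpw
  have hlab : ∀ z : {z : ℂ // ∃ i, aeval z (wp q (g i) (x i)) = 0},
      ∃ y : (Σ i, Fin (g i)) × Bool, num g q w ρ x (Sum.inl y) = (z : ℂ) := by
    rintro ⟨z, i, hz⟩
    obtain ⟨j, hj | hj⟩ := (lab_root hq0 (x i) z).1 hz
    · exact ⟨(⟨i, j⟩, false), by simp [num, hj]⟩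
    · exact ⟨(⟨i, j⟩, true), by simp [num, hj]⟩
  choose lb hlb using hlab
  have hprod : ∀ l : List {z : ℂ // ∃ i, aeval z (wp q (g i) (x i)) = 0},
      (l.map fun z : {z : ℂ // ∃ i, aeval z (wp q (g i) (x i)) = 0} => (z : ℂ) ^ s).prod =
        (∏ y, num g q w ρ x (Sum.inl y) ^ (l.map lb).count y) ^ s := by
    intro l
    induction l with
    | nil => simp
    | cons z l ih =>
      rw [List.map_cons, List.prod_cons, ih, List.map_cons, ← mul_pow]
      congr 1
      have h1 : ∏ y, num g q w ρ x (Sum.inl y) ^ (lb z :: l.map lb).count y =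
          ∏ y, ((if y = lb z then num g q w ρ x (Sum.inl y) else 1) *
            num g q w ρ x (Sum.inl y) ^ (l.map lb).count y) := by
        refine Finset.prod_congr rfl fun y _ => ?_
        rw [List.count_cons]
        by_cases h : y = lb z
        · subst h
          simp only [beq_self_eq_true, if_true]
          rw [pow_succ, mul_comm]
        · have h' : (lb z == y) = false := by
            rw [beq_eq_false_iff_ne]
            exact fun h2 => h h2.symm
          rw [if_neg h, h', one_mul]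
          simp
      rw [h1, Finset.prod_mul_distrib, Finset.prod_ite_eq' Finset.univ (lb z),
        if_pos (Finset.mem_univ _), hlb]
  -- the exponents
  set E : Idx g κ → ℕ := Sum.elim (fun y => s * s' * N * (ys.map lb).count y)
    (fun y => if y.2 then s' * (-(n y.1)).toNat else s' * (n y.1).toNat) with hE
  set W0 : ℂ := ∏ y, num g q w ρ x (Sum.inl y) ^ (ys.map lb).count y with hW
  have hk : ∀ k, ρ k ^ (s' * (n k).toNat) * ((q : ℂ) ^ w k / ρ k) ^ (s' * (-(n k)).toNat) =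
      (ρ k ^ n k) ^ s' * (q : ℂ) ^ (w k * (s' * (-(n k)).toNat)) := by
    intro k
    rcases le_total 0 (n k) with h | h
    · obtain ⟨n', hn'⟩ := Int.eq_ofNat_of_zero_le h
      rw [hn']
      have h3 : (-(n' : ℤ)).toNat = 0 := by omega
      rw [h3, Int.toNat_natCast, mul_zero, mul_zero, pow_zero, pow_zero, mul_one, mul_one,
        zpow_natCast, ← pow_mul, mul_comm]
    · obtain ⟨n', hn'⟩ := Int.eq_ofNat_of_zero_le (neg_nonneg.2 h)
      have hn2 : n k = -(n' : ℤ) := by omega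
      rw [hn2]
      simp only [neg_neg, Int.toNat_natCast, zpow_neg, zpow_natCast]
      have h3 : (-(n' : ℤ)).toNat = 0 := by omega
      rw [h3, mul_zero, pow_zero, one_mul, div_pow, ← pow_mul, inv_pow, ← pow_mul, mul_comm n' s',
        div_eq_mul_inv, mul_comm]
  have htotal : ∏ y, num g q w ρ x y ^ E y = (W0 ^ s) ^ (s' * N) *
      ((∏ k, ρ k ^ n k) ^ s' * (q : ℂ) ^ (∑ k, w k * (s' * (-(n k)).toNat))) := by
    rw [Fintype.prod_sum_type]
    congr 1
    · rw [hW, ← pow_mul, ← Finset.prod_pow]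
      refine Finset.prod_congr rfl fun y _ => ?_
      simp only [hE, Sum.elim_inl]
      rw [← pow_mul]
      congr 1
      ring
    · rw [Fintype.prod_prod_type, ← Finset.prod_pow, ← Finset.prod_pow_eq_pow_sum,
        ← Finset.prod_mul_distrib]
      refine Finset.prod_congr rfl fun k _ => ?_
      rw [Fintype.prod_bool, mul_comm, ← hk k]
      simp [hE, num]
  have hWρ : (W0 ^ s) ^ (s' * N) * (∏ k, ρ k ^ n k) ^ s' =
      (q : ℂ) ^ ((s : ℤ) * c * s' * N - t * s') := by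
    have h1 : ((ys.map fun z : {z : ℂ // ∃ i, aeval z (wp q (g i) (x i)) = 0} =>
        (z : ℂ) ^ s).prod * ρ0) ^ s' = (((q : ℂ) ^ s) ^ c) ^ s' := hrel
    rw [hprod] at h1
    have h2 := congrArg (fun z => z ^ N) h1
    rw [← pow_mul, mul_pow, mul_comm s' N, pow_mul ρ0 N s', hNt, mul_pow] at h2
    rw [mul_comm s' N]
    have h3 : ((((q : ℂ) ^ s) ^ c) ^ s') ^ N = (q : ℂ) ^ ((s : ℤ) * c * s' * N) := by
      rw [zpow_mul, zpow_mul, zpow_mul, zpow_natCast, zpow_natCast, zpow_natCast]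
    have h4 : ((q : ℂ) ^ t) ^ s' = (q : ℂ) ^ (t * s') := by
      rw [zpow_mul, zpow_natCast]
    rw [h3, h4, ← mul_assoc] at h2
    rw [zpow_sub₀ hqc, eq_div_iff (zpow_ne_zero _ hqc)]
    exact h2
  set T : ℤ := (s : ℤ) * c * s' * N - t * s' + (∑ k, w k * (s' * (-(n k)).toNat) : ℕ) with hT
  have hprodT : ∏ y, num g q w ρ x y ^ E y = (q : ℂ) ^ T := by
    rw [htotal, ← mul_assoc, hWρ, hT, zpow_add₀ hqc, zpow_natCast]
  have hweight : ((∑ y, E y * wt g w y : ℕ) : ℤ) = 2 * T := by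
    have h1 : (q : ℝ) ^ ((∑ y, E y * wt g w y : ℕ) : ℤ) = (q : ℝ) ^ (2 * T) := by
      have h2 := congrArg (fun z => ‖z‖ ^ 2) hprodT
      rw [norm_prod, ← Finset.prod_pow, norm_zpow, Complex.norm_natCast] at h2
      have h3 : ∏ y, ‖num g q w ρ x y ^ E y‖ ^ 2 = (q : ℝ) ^ (∑ y, E y * wt g w y : ℕ) := by
        rw [← Finset.prod_pow_eq_pow_sum]
        refine Finset.prod_congr rfl fun y _ => ?_
        rw [norm_pow, ← pow_mul, mul_comm (E y) 2, pow_mul, norm_num g hq0 hρ hx y, ← pow_mul,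
          mul_comm]
      rw [h3] at h2
      rw [zpow_natCast, h2, mul_comm 2 T, zpow_mul]
      norm_cast
    have hq1 : (1 : ℝ) < q := by exact_mod_cast hq
    exact zpow_right_injective₀ (by linarith) hq1.ne' h1
  obtain ⟨j, hj⟩ : ∃ j : ℕ, T = j := Int.eq_ofNat_of_zero_le (by omega)
  have hE2 : ∀ y : Σ i, Fin (g i), (ys.map lb).count (y, false) = (ys.map lb).count (y, true) := by
    rintro ⟨i, k⟩
    by_contra hne
    apply hexc
    refine ⟨E, ⟨i, k, ?_⟩, j, ?_, 1, one_pos, ?_⟩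
    · simp only [hE, Sum.elim_inl]
      intro h
      exact hne (Nat.eq_of_mul_eq_mul_left (by positivity) h)
    · rw [hj] at hweight
      exact_mod_cast hweight
    · rw [pow_one, pow_one, hprodT, hj, zpow_natCast]
  -- the contradiction
  obtain ⟨y0, l, rfl⟩ : ∃ y0 l, ys = y0 :: l := by
    cases ys with
    | nil => simp at hlen; omega
    | cons y l => exact ⟨y, l, rfl⟩
  have hpos : 0 < ((y0 :: l).map lb).count (lb y0) := by
    rw [List.count_pos_iff]
    simp
  have hboth : ∀ b : Bool, 0 < ((y0 :: l).map lb).count ((lb y0).1, b) := by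
    have h1 := hE2 (lb y0).1
    have h2 : lb y0 = ((lb y0).1, (lb y0).2) := rfl
    rw [h2] at hpos
    intro b
    cases b <;> cases h3 : (lb y0).2 <;> rw [h3] at hpos <;> omega
  obtain ⟨u, hu1, hu2⟩ := List.mem_map.1 (List.count_pos_iff.1 (hboth false))
  obtain ⟨v, hv1, hv2⟩ := List.mem_map.1 (List.count_pos_iff.1 (hboth true))
  have huv : u ≠ v := by
    rintro rfl
    rw [hu2] at hv2
    simp at hv2
  have hsymm : Std.Symm (fun y y' : {z : ℂ // ∃ i, aeval z (wp q (g i) (x i)) = 0} =>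
      (y : ℂ) ^ s * (y' : ℂ) ^ s ≠ (q : ℂ) ^ s) :=
    ⟨fun a b hab => by rwa [mul_comm]⟩
  have hpw' : List.Pairwise (fun y y' : {z : ℂ // ∃ i, aeval z (wp q (g i) (x i)) = 0} =>
      (y : ℂ) ^ s * (y' : ℂ) ^ s ≠ (q : ℂ) ^ s) (y0 :: l) := hpw
  have h1 := hpw'.forall hu1 hv1 huv
  apply h1
  rw [← mul_pow]
  congr 1
  rw [← hlb u, ← hlb v, hu2, hv2]
  simp only [num, Sum.elim_inl, if_true]
  exact lab_mul q _ _ _

end Pool.Agent.H857.PA
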