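import Pool.Agent.H857.PA.Split
import Pool.Agent.H857.PA.NoRel

/-!
# Lower bounds for the numbers of Weil polynomials, with and without relations
-/

set_option autoImplicit false
set_option linter.unusedSectionVars false

namespace Pool.Agent.H857.PA

open Polynomial Pool.Agent.W521.Frob Pool.Agent.W521.Descent Pool.Agent.W521.Density
  Pool.Agent.W521.Count Pool.Agent.W521.Lower Pool.Agent.X297.UB Pool.Agent.H857.PB
  Pool.Agent.Y1.CT Pool.Agent.W484.HS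

section

variable {p : ℕ} [hp : Fact p.Prime] {a : ℕ}

lemma slopeCount_mul {f f' : ℤ[X]} (hf : f ≠ 0) (hf' : f' ≠ 0) (Q r : ℝ) :
    slopeCount p (f * f') Q r = slopeCount p f Q r + slopeCount p f' Q r := by
  classical
  rw [slopeCount, slopeCount, slopeCount, aroots_mul (mul_ne_zero hf hf'), Multiset.countP_add]

lemma newtonWeil_mul {g g' : ℕ} {f f' : ℤ[X]} (hf : f ∈ newtonWeil p a g)
    (hf' : f' ∈ newtonWeil p a g') : f * f' ∈ newtonWeil p a (g + g') := by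
  obtain ⟨⟨h1, h2, h3, h4⟩, h5⟩ := hf
  obtain ⟨⟨h1', h2', h3', h4'⟩, h5'⟩ := hf'
  refine ⟨⟨h1.mul h1', ?_, ?_, ?_⟩, ?_⟩
  · rw [h1.natDegree_mul h1', h2, h2', mul_add]
  · rw [mul_coeff_zero, h3, h3', pow_add]
  · intro z hz
    rw [map_mul, mul_eq_zero] at hz
    rcases hz with hz | hz
    · exact h4 z hz
    · exact h4' z hz
  · intro r
    obtain ⟨c, hc⟩ := h5 r
    obtain ⟨c', hc'⟩ := h5' r
    refine ⟨c + c', ?_⟩
    rw [slopeCount_mul h1.ne_zero h1'.ne_zero]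
    push_cast
    rw [mul_add, hc, hc']

/-- The polynomial `x ^ 2 + q`. -/
lemma supersingular_mem (ha : 0 < a) :
    (Polynomial.X ^ 2 + C ((p ^ a : ℕ) : ℤ) : ℤ[X]) ∈ newtonWeil p a 1 := by
  classical
  have hp1 : (1 : ℝ) < p := one_lt_p
  have hq1 : (1 : ℝ) < (p : ℝ) ^ a := one_lt_pow₀ hp1 ha.ne'
  have hq0 : (0 : ℝ) < (p : ℝ) ^ a := by linarith
  have hmon : (Polynomial.X ^ 2 + C ((p ^ a : ℕ) : ℤ) : ℤ[X]).Monic :=
    monic_X_pow_add_C _ two_ne_zero
  have hdeg : (Polynomial.X ^ 2 + C ((p ^ a : ℕ) : ℤ) : ℤ[X]).natDegree = 2 :=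
    natDegree_X_pow_add_C
  refine ⟨⟨hmon, by rw [hdeg], by rw [coeff_add, coeff_X_pow, coeff_C_zero]; simp, ?_⟩, ?_⟩
  · intro z hz
    rw [map_add, map_pow, aeval_X, aeval_C] at hz
    have h1 : z ^ 2 = -((p ^ a : ℕ) : ℂ) := by
      rw [eq_neg_iff_add_eq_zero]
      simpa using hz
    rw [← norm_pow, h1, norm_neg, Complex.norm_natCast]
  · intro r
    have hroots : ∀ y ∈ (Polynomial.X ^ 2 + C ((p ^ a : ℕ) : ℤ) : ℤ[X]).aroots (PadicAlgCl p),
        ‖y‖ = ((p : ℝ) ^ a) ^ (-(1 / 2) : ℝ) := by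
      intro y hy
      rw [mem_aroots] at hy
      have h1 := hy.2
      rw [map_add, map_pow, aeval_X, aeval_C] at h1
      have h2 : y ^ 2 = -((p ^ a : ℕ) : PadicAlgCl p) := by
        rw [eq_neg_iff_add_eq_zero]
        simpa using h1
      have h3 : ‖y‖ ^ 2 = ((p : ℝ) ^ a)⁻¹ := by
        rw [← norm_pow, h2, norm_neg, norm_q]
      have h4 : (((p : ℝ) ^ a) ^ (-(1 / 2) : ℝ)) ^ 2 = ((p : ℝ) ^ a)⁻¹ := by
        rw [← Real.rpow_natCast (((p : ℝ) ^ a) ^ (-(1 / 2) : ℝ)), ← Real.rpow_mul hq0.le,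
          ← Real.rpow_neg_one]
        norm_num
      rw [← h4] at h3
      exact (pow_left_inj₀ (norm_nonneg _) (by positivity) two_ne_zero).1 h3
    have hcard : ((Polynomial.X ^ 2 + C ((p ^ a : ℕ) : ℤ) : ℤ[X]).aroots (PadicAlgCl p)).card = 2 := by
      rw [aroots, ← (IsAlgClosed.splits _).natDegree_eq_card_roots, hmon.natDegree_map, hdeg]
    by_cases hr : r = 1 / 2
    · refine ⟨1, ?_⟩
      have h1 : slopeCount p (Polynomial.X ^ 2 + C ((p ^ a : ℕ) : ℤ) : ℤ[X]) ((p : ℝ) ^ a) r = 2 := by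
        refine Eq.trans ?_ hcard
        rw [slopeCount, Multiset.countP_eq_card]
        intro y hy
        rw [hr]
        exact hroots y hy
      rw [h1, hr]
      norm_num
    · refine ⟨0, ?_⟩
      have h1 : slopeCount p (Polynomial.X ^ 2 + C ((p ^ a : ℕ) : ℤ) : ℤ[X]) ((p : ℝ) ^ a) r = 0 := by
        rw [slopeCount, Multiset.countP_eq_zero]
        intro y hy h2
        rw [hroots y hy] at h2
        have h3 := (Real.rpow_right_inj hq0 hq1.ne').1 h2
        apply hr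
        linarith
      rw [h1]
      simp

lemma ordinary_mem (ha : 0 < a) {g : ℕ} {f : ℤ[X]} (hf : f ∈ ordinaryWeilPolys (p ^ a) g) :
    f ∈ newtonWeil p a g := by
  have hq : p ^ a ≠ 0 := pow_ne_zero _ hp.out.ne_zero
  obtain ⟨h1, h2⟩ := hf
  obtain ⟨x, rfl, -⟩ := exists_point hq h1
  exact ⟨h1, ordinary_newton ha h1 h2⟩

variable (p a)

/-- Weil polynomials with a special relation between two roots. -/
def Ex (g : ℕ) : Set ℤ[X] :=
  {f ∈ newtonWeil p a g | ∃ α : ℂ, α ≠ 0 ∧ aeval α f = 0 ∧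
    aeval (-((p ^ a : ℕ) : ℂ) / α) f = 0}

variable {p a}

lemma newtonWeil_finite {g : ℕ} : (newtonWeil p a g).Finite :=
  (finite_weilPolys (pow_ne_zero _ hp.out.ne_zero)).subset fun _ h => h.1

lemma Ex_finite {g : ℕ} : (Ex p a g).Finite := newtonWeil_finite.subset fun _ h => h.1

lemma ncast_pow : ((p ^ a : ℕ) : ℝ) = (p : ℝ) ^ a := by push_cast; rfl

lemma prod_sqrt (Q : ℝ) (g : ℕ) : ∏ k : Fin g, Real.sqrt Q ^ (g - (k : ℕ)) = Real.sqrt Q ^ tot g := by
  rw [Finset.prod_pow_eq_pow_sum, sum_tot]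

/-- The number of all the Weil polynomials. -/
theorem newtonWeil_lower (ha : 0 < a) (g : ℕ) :
    Real.sqrt ((p : ℝ) ^ a) ^ tot g ≤ (4 * 2 ^ (g ^ 2)) * ((newtonWeil p a g).ncard : ℝ) := by
  rcases Nat.eq_zero_or_pos g with rfl | hg
  · have h1 : (1 : ℤ[X]) ∈ newtonWeil p a 0 := by
      refine ⟨⟨monic_one, by simp, by simp, ?_⟩, ?_⟩
      · intro z hz
        simp at hz
      · intro r
        refine ⟨0, ?_⟩
        simp [slopeCount]
    have h2 : 0 < (newtonWeil p a 0).ncard := (Set.ncard_pos newtonWeil_finite).2 ⟨_, h1⟩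
    have h3 : (1 : ℝ) ≤ ((newtonWeil p a 0).ncard : ℝ) := by exact_mod_cast h2
    simp only [tot, zero_mul, Nat.zero_div, pow_zero]
    norm_num
    linarith
  · have h1 := ordinary_lower (q := p ^ a) (hp.out.isPrimePow.pow ha.ne') hg
    rw [ncast_pow, prod_sqrt] at h1
    refine h1.trans ?_
    refine mul_le_mul_of_nonneg_left ?_ (by positivity)
    exact_mod_cast Set.ncard_le_ncard (fun f hf => ordinary_mem ha hf) newtonWeil_finite

lemma Ex_one (ha : 0 < a) : (1 : ℝ) ≤ ((Ex p a 1).ncard : ℝ) := by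
  have h1 : (Polynomial.X ^ 2 + C ((p ^ a : ℕ) : ℤ) : ℤ[X]) ∈ Ex p a 1 := by
    refine ⟨supersingular_mem ha, ?_⟩
    obtain ⟨α, hα⟩ := IsAlgClosed.exists_pow_nat_eq (-((p ^ a : ℕ) : ℂ)) two_pos
    have hq : ((p ^ a : ℕ) : ℂ) ≠ 0 := Nat.cast_ne_zero.2 (pow_ne_zero _ hp.out.ne_zero)
    have h0 : α ≠ 0 := by
      rintro rfl
      rw [zero_pow two_ne_zero] at hα
      exact hq (neg_eq_zero.1 hα.symm)
    have h2 : -((p ^ a : ℕ) : ℂ) / α = α := by
      rw [← hα, sq, mul_div_cancel_right₀ _ h0]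
    have h3 : aeval α (Polynomial.X ^ 2 + C ((p ^ a : ℕ) : ℤ) : ℤ[X]) = 0 := by
      rw [map_add, map_pow, aeval_X, aeval_C, hα]
      simp
    exact ⟨α, h0, h3, by rw [h2]; exact h3⟩
  have h2 : 0 < (Ex p a 1).ncard := (Set.ncard_pos Ex_finite).2 ⟨_, h1⟩
  exact_mod_cast h2

lemma Ex_succ (ha : 0 < a) {g : ℕ} (hg : 0 < g) :
    Real.sqrt ((p : ℝ) ^ a) ^ tot g ≤ (4 * 2 ^ (g ^ 2)) * ((Ex p a (g + 1)).ncard : ℝ) := by
  have h1 := ordinary_lower (q := p ^ a) (hp.out.isPrimePow.pow ha.ne') hg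
  rw [ncast_pow, prod_sqrt] at h1
  refine h1.trans ?_
  refine mul_le_mul_of_nonneg_left ?_ (by positivity)
  set fE : ℤ[X] := Polynomial.X ^ 2 + C ((p ^ a : ℕ) : ℤ) with hfE
  have hmon : fE.Monic := monic_X_pow_add_C _ two_ne_zero
  have hinj : Function.Injective fun f : ℤ[X] => f * fE :=
    fun f f' h => mul_right_cancel₀ hmon.ne_zero h
  have h2 : ((fun f : ℤ[X] => f * fE) '' ordinaryWeilPolys (p ^ a) g).ncard =
      (ordinaryWeilPolys (p ^ a) g).ncard := Set.ncard_image_of_injective _ hinj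
  rw [← h2]
  have h3 : ((fun f : ℤ[X] => f * fE) '' ordinaryWeilPolys (p ^ a) g) ⊆ Ex p a (g + 1) := by
    rintro _ ⟨f, hf, rfl⟩
    refine ⟨newtonWeil_mul (ordinary_mem ha hf) (supersingular_mem ha), ?_⟩
    obtain ⟨α, hα⟩ := IsAlgClosed.exists_pow_nat_eq (-((p ^ a : ℕ) : ℂ)) two_pos
    have hq : ((p ^ a : ℕ) : ℂ) ≠ 0 := Nat.cast_ne_zero.2 (pow_ne_zero _ hp.out.ne_zero)
    have h0 : α ≠ 0 := by
      rintro rfl
      rw [zero_pow two_ne_zero] at hα
      exact hq (neg_eq_zero.1 hα.symm)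
    have h2 : -((p ^ a : ℕ) : ℂ) / α = α := by
      rw [← hα, sq, mul_div_cancel_right₀ _ h0]
    have h3 : aeval α (f * fE) = 0 := by
      have h4 : aeval α fE = 0 := by
        rw [hfE, map_add, map_pow, aeval_X, aeval_C, hα]
        simp
      rw [map_mul, h4, mul_zero]
    exact ⟨α, h0, h3, by rw [h2]; exact h3⟩
  exact_mod_cast Set.ncard_le_ncard h3 Ex_finite

/-- The point of the polynomial `x ^ 2 - d`. -/
def ptd (d : ℕ) : Fin 2 → ℤ := fun k => if k = 0 then -(d : ℤ) else 0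

lemma aeval_ptd {K : Type} [Field K] [CharZero K] (d : ℕ) (z : K) :
    aeval z (mkPoly 2 (ptd d)) = z ^ 2 - d := by
  rw [mkPoly, Fin.sum_univ_two]
  simp [ptd]
  ring

lemma ptd_mem (ha : 0 < a) {d : ℕ} (hd : d ≤ p ^ a) (hpd : ¬ p ∣ d) :
    wp (p ^ a) 2 (ptd d) ∈ Ex p a 2 := by
  have hq : 0 < p ^ a := pow_pos hp.out.pos _
  have h1 : wp (p ^ a) 2 (ptd d) ∈ weilPolys (p ^ a) 2 := by
    refine mem_weilPolys hq (mkPoly_monic _ _) (mkPoly_natDegree _ _) ?_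
    intro z hz
    rw [aeval_ptd, sub_eq_zero] at hz
    have h2 : (z - (Real.sqrt d : ℂ)) * (z + (Real.sqrt d : ℂ)) = 0 := by
      have h3 : ((Real.sqrt d : ℝ) : ℂ) ^ 2 = d := by
        rw [← Complex.ofReal_pow, Real.sq_sqrt (Nat.cast_nonneg _)]
        simp
      linear_combination hz - h3
    have h3 : Real.sqrt d ≤ 2 * Real.sqrt (p ^ a : ℕ) := by
      have h4 : Real.sqrt d ≤ Real.sqrt (p ^ a : ℕ) := Real.sqrt_le_sqrt (by exact_mod_cast hd)
      have h5 := Real.sqrt_nonneg ((p ^ a : ℕ) : ℝ)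
      linarith
    rcases mul_eq_zero.1 h2 with h4 | h4
    · refine ⟨Real.sqrt d, ?_, (sub_eq_zero.1 h4).symm⟩
      rw [abs_of_nonneg (Real.sqrt_nonneg _)]
      exact h3
    · refine ⟨-Real.sqrt d, ?_, ?_⟩
      · rw [abs_neg, abs_of_nonneg (Real.sqrt_nonneg _)]
        exact h3
      · rw [eq_neg_of_add_eq_zero_left h4]
        simp
  have hcop : IsCoprime ((wp (p ^ a) 2 (ptd d)).coeff 2) ((p ^ a : ℕ) : ℤ) := by
    have h2 := weil_coeff_mid (p ^ a) (mkPoly 2 (ptd d))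
    rw [mkPoly_natDegree] at h2
    have h3 : (mkPoly 2 (ptd d)).coeff 0 = -(d : ℤ) := mkPoly_coeff 2 (ptd d) 0
    rw [h3] at h2
    obtain ⟨c, hc⟩ := h2
    have h4 : (wp (p ^ a) 2 (ptd d)).coeff 2 = -(d : ℤ) + ((p ^ a : ℕ) : ℤ) * c := by
      rw [wp]
      linarith
    rw [h4]
    refine IsCoprime.add_mul_left_left ?_ c
    rw [IsCoprime.neg_left_iff]
    push_cast
    refine IsCoprime.pow_right ?_
    rw [isCoprime_comm, Nat.isCoprime_iff_coprime]
    exact (Nat.Prime.coprime_iff_not_dvd hp.out).2 hpd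
  refine ⟨⟨h1, ordinary_newton ha h1 hcop⟩, ?_⟩
  have hdeg : ((wp (p ^ a) 2 (ptd d)).map (algebraMap ℤ ℂ)).natDegree ≠ 0 := by
    rw [(wp_monic _ _ _).natDegree_map, wp_natDegree]
    norm_num
  obtain ⟨α, hα⟩ := IsAlgClosed.exists_root _ (fun h => hdeg (natDegree_eq_of_degree_eq_some h))
  rw [IsRoot.def, eval_map] at hα
  have hα' : aeval α (weil (p ^ a) (mkPoly 2 (ptd d))) = 0 := hα
  have hm := mkPoly_monic 2 (ptd d)
  obtain ⟨h0, h2⟩ := (root_iff hq.ne' hm α).1 hα'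
  have h3 : aeval (-α) (weil (p ^ a) (mkPoly 2 (ptd d))) = 0 := by
    rw [root_iff hq.ne' hm]
    refine ⟨neg_ne_zero.2 h0, ?_⟩
    rw [aeval_ptd] at h2 ⊢
    rw [← h2]
    field_simp
    ring
  refine ⟨α, h0, hα, ?_⟩
  have h4 := root_conj hq.ne' hm h3
  rw [div_neg, ← neg_div] at h4
  exact h4

lemma Ex_two (ha : 0 < a) : Real.sqrt ((p : ℝ) ^ a) ^ 2 ≤ 2 * ((Ex p a 2).ncard : ℝ) := by
  classical
  rw [Real.sq_sqrt (by positivity)]
  have h1 := card_prime_to p (p ^ a) hp.out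
  have hinj : Function.Injective fun d : ℕ => wp (p ^ a) 2 (ptd d) := by
    intro d d' h
    have h2 := wp_injective (pow_ne_zero _ hp.out.ne_zero) 2 h
    have h3 := congrFun h2 0
    simp only [ptd, if_true] at h3
    omega
  have h2 : (((Finset.Icc 1 (p ^ a)).filter (fun e => ¬ p ∣ e)).image
      fun d : ℕ => wp (p ^ a) 2 (ptd d)).card ≤ (Ex p a 2).ncard := by
    rw [← Set.ncard_coe_finset]
    refine Set.ncard_le_ncard ?_ Ex_finite
    intro f hf
    rw [Finset.mem_coe, Finset.mem_image] at hf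
    obtain ⟨d, hd, rfl⟩ := hf
    rw [Finset.mem_filter, Finset.mem_Icc] at hd
    exact ptd_mem ha hd.1.2 hd.2
  rw [Finset.card_image_of_injective _ hinj] at h2
  have h3 : p ^ a ≤ 2 * (Ex p a 2).ncard := h1.trans (Nat.mul_le_mul_left 2 h2)
  exact_mod_cast h3

/-- **The number of Weil polynomials with a special relation.** -/
theorem Ex_lower (ha : 0 < a) {g : ℕ} (hg : 0 < g) :
    Real.sqrt ((p : ℝ) ^ a) ^ expo g ≤ (4 * 2 ^ (g ^ 2)) * ((Ex p a g).ncard : ℝ) := by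
  have hnn : (0 : ℝ) ≤ ((Ex p a g).ncard : ℝ) := Nat.cast_nonneg _
  by_cases h1 : g = 1
  · subst h1
    have h2 := Ex_one (p := p) ha
    simp only [expo]
    norm_num
    linarith
  by_cases h2 : g = 2
  · subst h2
    have h3 := Ex_two (p := p) ha
    rw [expo, if_pos rfl]
    have h4 : (4 : ℝ) * 2 ^ (2 ^ 2) = 64 := by norm_num
    rw [h4]
    linarith
  · obtain ⟨g', rfl⟩ : ∃ g', g = g' + 1 := ⟨g - 1, by omega⟩
    have h3 := Ex_succ (p := p) ha (g := g') (by omega)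
    have h4 : expo (g' + 1) = tot g' := by
      rw [expo, if_neg h2, tot, Nat.add_sub_cancel, mul_comm]
    rw [h4]
    refine h3.trans (mul_le_mul_of_nonneg_right ?_ hnn)
    refine mul_le_mul_of_nonneg_left ?_ (by norm_num)
    exact pow_le_pow_right₀ (by norm_num) (Nat.pow_le_pow_left (by omega) 2)

end

/-- The special relation is not allowed. -/
lemma not_noRel {I : Type} {f : I → ℤ[X]} {q : ℕ} (hq : q ≠ 0) {R : ℂ → Prop} (i : I) {α : ℂ}
    (h0 : α ≠ 0) (h1 : aeval α (f i) = 0) (h2 : aeval (-(q : ℂ) / α) (f i) = 0) :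
    ¬ NoRel f q R := by
  intro h
  have hq' : (q : ℂ) ≠ 0 := by exact_mod_cast hq
  have h3 := h.pair 1 one_pos 1 h.one 2 1 2 two_pos two_pos
    [⟨α, i, h1⟩, ⟨-(q : ℂ) / α, i, h2⟩] rfl
  have h4 : α * (-(q : ℂ) / α) = -q := mul_div_cancel₀ _ h0
  apply h3
  · simp only [List.map_cons, List.map_nil, List.prod_cons, List.prod_nil, mul_one, pow_one,
      zpow_one]
    rw [h4, neg_sq]
  · rw [List.pairwise_pair]
    simp only [pow_one]
    rw [h4]
    intro h5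
    apply hq'
    have h6 : (2 : ℂ) * q = 0 := by linear_combination -h5
    simpa using h6

end Pool.Agent.H857.PA
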