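import Pool.Agent.H857.PA.Table
import Pool.Agent.H857.PA.Fibre

/-!
# Integral Newton polygons and slopes
-/

set_option autoImplicit false

namespace Pool.Agent.H857.PA

open Polynomial Pool.Agent.W521.Descent Pool.Agent.X297.UB Pool.Agent.H857.PB

/-- The number of the roots of `f` (with multiplicities) in the algebraic closure of the field of
`p`-adic numbers which have the slope `r` relative to `q`, that is, the absolute value `q ^ (-r)`. -/
noncomputable def slopeCount (p : ℕ) [Fact p.Prime] (f : ℤ[X]) (q r : ℝ) : ℕ :=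
  open Classical in Multiset.countP (fun x : PadicAlgCl p => ‖x‖ = q ^ (-r))
    (f.aroots (PadicAlgCl p))

/-- The vertices of the Newton polygon of `f` relative to `q = p ^ a` have integral coordinates: for
every real number `r` the product of `r` and the number of the roots of slope `r` is an integer. -/
def NewtonInt (p : ℕ) [Fact p.Prime] (a : ℕ) (f : ℤ[X]) : Prop :=
  ∀ r : ℝ, ∃ c : ℤ, r * slopeCount p f ((p : ℝ) ^ a) r = c

/-- The Weil polynomials relative to `q = p ^ a` of degree `2 g` whose Newton polygons have integral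
vertices. The characteristic polynomials of the Frobenius endomorphisms of the abelian varieties of
dimension `g` over the field with `q` elements belong to this set. -/
def newtonWeil (p : ℕ) [Fact p.Prime] (a g : ℕ) : Set ℤ[X] :=
  {f ∈ weilPolys (p ^ a) g | NewtonInt p a f}

variable {p : ℕ} [hp : Fact p.Prime] {a : ℕ}

lemma exists_slope (ha : 0 < a) {n : ℕ} {f : ℤ[X]} (hf : f.Monic) (hdeg : f.natDegree ≤ n)
    (hN : NewtonInt p a f) {y : PadicAlgCl p} (hy : aeval y f = 0) (hy0 : y ≠ 0) :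
    ∃ r : ℕ, ‖y‖ ^ (n.factorial) = (((p : ℝ) ^ a)⁻¹) ^ r := by
  classical
  have hp1 : (1 : ℝ) < p := one_lt_p
  have hp0 : (0 : ℝ) < p := by linarith
  have hqpos : (0 : ℝ) < (p : ℝ) ^ a := by positivity
  have hq1 : (1 : ℝ) < (p : ℝ) ^ a := one_lt_pow₀ hp1 ha.ne'
  have hny : 0 < ‖y‖ := norm_pos_iff.2 hy0
  have hle : ‖y‖ ≤ 1 := norm_le_one_of_integral p hf hy
  set r : ℝ := - Real.logb ((p : ℝ) ^ a) ‖y‖ with hr
  have hnorm : ‖y‖ = ((p : ℝ) ^ a) ^ (-r) := by
    rw [hr, neg_neg, Real.rpow_logb hqpos hq1.ne' hny]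
  have hr0 : 0 ≤ r := by
    rw [hr, neg_nonneg, Real.logb_nonpos_iff hq1 hny]
    exact hle
  obtain ⟨c, hc⟩ := hN r
  set m := slopeCount p f ((p : ℝ) ^ a) r with hm
  have hm1 : 0 < m := by
    rw [hm, slopeCount, Multiset.countP_pos]
    refine ⟨y, ?_, hnorm⟩
    rw [mem_aroots]
    exact ⟨hf.ne_zero, hy⟩
  have hmn : m ≤ n := by
    rw [hm, slopeCount]
    refine (Multiset.countP_le_card _ _).trans ?_
    refine (Polynomial.card_roots' _).trans ?_
    exact natDegree_map_le.trans hdeg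
  obtain ⟨d, hd⟩ : m ∣ n.factorial := Nat.dvd_factorial hm1 hmn
  have hc0 : 0 ≤ c := by
    have : (0 : ℝ) ≤ (c : ℝ) := by
      rw [← hc]
      positivity
    exact_mod_cast this
  obtain ⟨c', rfl⟩ := Int.eq_ofNat_of_zero_le hc0
  refine ⟨d * c', ?_⟩
  rw [hnorm]
  generalize (p : ℝ) ^ a = Q at *
  rw [← Real.rpow_natCast (Q ^ (-r)), ← Real.rpow_mul hqpos.le, inv_pow, ← Real.rpow_natCast Q,
    ← Real.rpow_neg hqpos.le]
  congr 1
  rw [hd]
  push_cast at hc ⊢
  linear_combination (-(d : ℝ)) * hc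

lemma isWeilNum_of_root (ha : 0 < a) {g : ℕ} {f : ℤ[X]} (hf : f ∈ newtonWeil p a g) {z : ℂ}
    (hz : aeval z f = 0) : IsWeilNum p a (2 * g).factorial 1 z := by
  obtain ⟨⟨h1, h2, h3, h4⟩, h5⟩ := hf
  refine ⟨f, h1, hz, fun z hz => ?_, fun y hy => ?_⟩
  · rw [pow_one, h4 z hz]
    push_cast
    rfl
  · refine exists_slope ha h1 h2.le h5 hy ?_
    rintro rfl
    rw [← coeff_zero_eq_aeval_zero', h3] at hy
    have h6 : ((p ^ a : ℕ) : PadicAlgCl p) ^ g = 0 := by
      simpa using hy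
    exact pow_ne_zero _ (Nat.cast_ne_zero.2 (pow_ne_zero _ hp.out.ne_zero)) h6

lemma IsWeilNum.mono {D D' w : ℕ} (hD : D ∣ D') {x : ℂ} (h : IsWeilNum p a D w x) :
    IsWeilNum p a D' w x := by
  obtain ⟨F, h1, h2, h3, h4⟩ := h
  refine ⟨F, h1, h2, h3, fun y hy => ?_⟩
  obtain ⟨r, hr⟩ := h4 y hy
  obtain ⟨d, rfl⟩ := hD
  exact ⟨r * d, by rw [pow_mul, hr, ← pow_mul]⟩

lemma IsWeilNum.norm_sq {D w : ℕ} {x : ℂ} (h : IsWeilNum p a D w x) :
    ‖x‖ ^ 2 = ((p : ℝ) ^ a) ^ w := by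
  obtain ⟨F, h1, h2, h3, h4⟩ := h
  exact h3 x h2

lemma IsWeilNum.ne_zero {D w : ℕ} {x : ℂ} (h : IsWeilNum p a D w x) : x ≠ 0 := by
  rintro rfl
  have h1 := h.norm_sq
  have h2 : (0 : ℝ) < ((p : ℝ) ^ a) ^ w := by
    have : (0 : ℝ) < p := by exact_mod_cast hp.out.pos
    positivity
  rw [norm_zero, zero_pow two_ne_zero] at h1
  exact h2.ne h1

lemma IsWeilNum.conj {D w : ℕ} {x : ℂ} (h : IsWeilNum p a D w x) :
    IsWeilNum p a D w ((starRingEnd ℂ) x) := by
  obtain ⟨F, h1, h2, h3, h4⟩ := h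
  exact ⟨F, h1, aeval_hom _ h2, h3, h4⟩

lemma IsWeilNum.mul_conj {D w : ℕ} {x : ℂ} (h : IsWeilNum p a D w x) :
    x * (starRingEnd ℂ) x = ((p ^ a : ℕ) : ℂ) ^ w := by
  rw [Complex.mul_conj, Complex.normSq_eq_norm_sq, h.norm_sq]
  push_cast
  rfl

end Pool.Agent.H857.PA
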