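import Pool.Agent.H857.PA.CountFam

/-!
# Ordinary Weil polynomials and Newton polygons
-/

set_option autoImplicit false
set_option linter.unusedSectionVars false

namespace Pool.Agent.H857.PA

open Polynomial Pool.Agent.W521.Frob Pool.Agent.W521.Descent Pool.Agent.W521.Density
  Pool.Agent.W521.Count Pool.Agent.W521.Lower Pool.Agent.X297.UB Pool.Agent.H857.PB

/-- The factorisation of the Weil polynomial. -/
lemma wp_map_eq {K : Type} [Field K] [CharZero K] {q g : ℕ} {x : Fin g → ℤ}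
    {a b : Fin g → K} (hab : ∀ i, a i * b i = q)
    (hx : hp (fun i => (x i : K)) = ∏ j, (Polynomial.X - C (a j + b j))) :
    (wp q g x).map (algebraMap ℤ K) = ∏ j, ((Polynomial.X - C (a j)) * (Polynomial.X - C (b j))) := by
  have : Infinite K := CharZero.infinite K
  apply Polynomial.eq_of_infinite_eval_eq
  refine Set.Infinite.mono (s := {z : K | z ≠ 0}) ?_ ?_
  · intro z hz
    rw [Set.mem_ofPred_eq] at hz ⊢
    have h1 : z ^ 2 + q = (z + q / z) * z := by field_simp
    have h2 := aeval_weil q (mkPoly g x) z (z + q / z) h1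
    rw [mkPoly_natDegree] at h2
    have h3 : aeval (z + q / z) (mkPoly g x) = ∏ j, (z + q / z - (a j + b j)) := by
      have h4 := congrArg (Polynomial.eval (z + q / z)) hx
      rw [hp_eq_map, eval_map, eval_prod] at h4
      rw [aeval_def, h4]
      simp
    rw [eval_map, ← aeval_def, wp, h2, h3, eval_prod]
    have h4 : z ^ g = ∏ _j : Fin g, z := by rw [Finset.prod_const, Finset.card_univ, Fintype.card_fin]
    rw [h4, ← Finset.prod_mul_distrib]
    refine Finset.prod_congr rfl fun j _ => ?_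
    rw [eval_mul, eval_sub, eval_sub, eval_X, eval_C, eval_C]
    have h5 : z * (q / z) = a j * b j := by rw [hab, mul_div_cancel₀ _ hz]
    linear_combination h5
  · exact (Set.finite_singleton (0 : K)).infinite_compl

lemma aroots_wp {K : Type} [Field K] [CharZero K] {q g : ℕ} {x : Fin g → ℤ}
    {a b : Fin g → K} (hab : ∀ i, a i * b i = q)
    (hx : hp (fun i => (x i : K)) = ∏ j, (Polynomial.X - C (a j + b j))) :
    (wp q g x).aroots K = ∑ j, ({a j, b j} : Multiset K) := by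
  rw [aroots, wp_map_eq hab hx, roots_prod]
  · rw [Multiset.bind, Multiset.join]
    rw [← Finset.sum_eq_multiset_sum]
    refine Finset.sum_congr rfl fun j _ => ?_
    rw [roots_mul (mul_ne_zero (X_sub_C_ne_zero _) (X_sub_C_ne_zero _)), roots_X_sub_C,
      roots_X_sub_C]
    rfl
  · exact Finset.prod_ne_zero_iff.2 fun j _ =>
      mul_ne_zero (X_sub_C_ne_zero _) (X_sub_C_ne_zero _)

section

variable {p : ℕ} [hp : Fact p.Prime] {a : ℕ}

open Classical in
lemma slopeCount_wp {g : ℕ} {x : Fin g → ℤ} {A B : Fin g → PadicAlgCl p}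
    (hab : ∀ i, A i * B i = ((p ^ a : ℕ) : PadicAlgCl p))
    (hx : PB.hp (fun i => (x i : PadicAlgCl p)) = ∏ j, (Polynomial.X - C (A j + B j)))
    (Q r : ℝ) :
    slopeCount p (wp (p ^ a) g x) Q r = ∑ j, ((if ‖A j‖ = Q ^ (-r) then 1 else 0) +
      (if ‖B j‖ = Q ^ (-r) then 1 else 0)) := by
  have h : (wp (p ^ a) g x).aroots (PadicAlgCl p) = ∑ j, ({A j, B j} : Multiset (PadicAlgCl p)) :=
    aroots_wp hab hx
  rw [slopeCount, h, ← Multiset.coe_countPAddMonoidHom, map_sum]
  refine Finset.sum_congr rfl fun j _ => ?_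
  rw [Multiset.coe_countPAddMonoidHom, Multiset.insert_eq_cons, Multiset.countP_cons,
    ← Multiset.cons_zero (B j), Multiset.countP_cons, Multiset.countP_zero, zero_add, add_comm]

lemma norm_q : ‖((p ^ a : ℕ) : PadicAlgCl p)‖ = ((p : ℝ) ^ a)⁻¹ := by
  push_cast
  rw [norm_pow, norm_p, inv_pow]

/-- The slopes of an ordinary Weil polynomial. -/
lemma ordinary_newton (ha : 0 < a) {g : ℕ} {x : Fin g → ℤ}
    (hx : wp (p ^ a) g x ∈ weilPolys (p ^ a) g) (hcop : IsCoprime ((wp (p ^ a) g x).coeff g)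
      ((p ^ a : ℕ) : ℤ)) : NewtonInt p a (wp (p ^ a) g x) := by
  classical
  have hq : p ^ a ≠ 0 := pow_ne_zero _ hp.out.ne_zero
  have hp1 : (1 : ℝ) < p := one_lt_p
  have hq1 : (1 : ℝ) < (p : ℝ) ^ a := one_lt_pow₀ hp1 ha.ne'
  have hq0 : (0 : ℝ) < (p : ℝ) ^ a := by linarith
  obtain ⟨A, B, hab, hx'⟩ := exists_hp (K := PadicAlgCl p) (q := p ^ a) x
  have hroot := root_iff_of_hp hq hab hx'
  have hA : ∀ j, ‖A j‖ ≤ 1 := fun j =>
    norm_le_one_of_integral p (wp_monic _ _ _) ((hroot (A j)).2 ⟨j, Or.inl rfl⟩)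
  have hB : ∀ j, ‖B j‖ ≤ 1 := fun j =>
    norm_le_one_of_integral p (wp_monic _ _ _) ((hroot (B j)).2 ⟨j, Or.inr rfl⟩)
  have hθ : ∀ j, ‖A j + B j‖ ≤ 1 := fun j =>
    (IsUltrametricDist.norm_add_le_max _ _).trans (max_le (hA j) (hB j))
  -- the constant coefficient
  have h0 : ∏ j, ‖A j + B j‖ = 1 := by
    rcases Nat.eq_zero_or_pos g with hg | hg
    · subst hg
      simp
    have h1 := congrArg (fun P => P.coeff 0) hx'
    have h2 : (PB.hp (fun i => (x i : PadicAlgCl p))).coeff 0 = (x ⟨0, hg⟩ : PadicAlgCl p) :=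
      hp_coeff (fun i => (x i : PadicAlgCl p)) ⟨0, hg⟩
    simp only [h2, coeff_zero_eq_eval_zero, eval_prod, eval_sub, eval_X, eval_C, zero_sub] at h1
    have h3 : ‖(x ⟨0, hg⟩ : PadicAlgCl p)‖ = 1 := by
      have h4 : (x ⟨0, hg⟩ : PadicAlgCl p) =
          algebraMap ℚ_[p] (PadicAlgCl p) (x ⟨0, hg⟩ : ℚ_[p]) := by
        rw [map_intCast]
      rw [h4, PadicAlgCl.norm_extends]
      have h5 := Padic.norm_int_le_one (p := p) (x ⟨0, hg⟩)
      have h6 : ¬ ‖((x ⟨0, hg⟩ : ℤ) : ℚ_[p])‖ < 1 := by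
        rw [Padic.norm_intCast_lt_one_iff]
        intro h7
        have h8 := weil_coeff_mid (p ^ a) (mkPoly g x)
        rw [mkPoly_natDegree] at h8
        have h9 : (mkPoly g x).coeff 0 = x ⟨0, hg⟩ := mkPoly_coeff g x ⟨0, hg⟩
        have h10 : (p : ℤ) ∣ (weil (p ^ a) (mkPoly g x)).coeff g := by
          have h11 : (p : ℤ) ∣ (((p ^ a : ℕ) : ℤ)) := by
            exact_mod_cast dvd_pow_self p ha.ne'
          have h12 := h11.trans h8
          have h13 : (p : ℤ) ∣ (mkPoly g x).coeff 0 := by rw [h9]; exact_mod_cast h7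
          have h14 := dvd_add h12 h13
          rwa [sub_add_cancel] at h14
        have h11 : IsCoprime (p : ℤ) (p : ℤ) := by
          refine IsCoprime.of_isCoprime_of_dvd_left ?_ h10
          refine IsCoprime.of_isCoprime_of_dvd_right hcop ?_
          exact_mod_cast dvd_pow_self p ha.ne'
        rw [isCoprime_self] at h11
        have h12 := Int.isUnit_iff.1 h11
        have := hp.out.one_lt
        omega
      push Not at h6
      exact le_antisymm h5 h6
    have h4 := congrArg (fun z => ‖z‖) h1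
    rw [h3, norm_prod] at h4
    rw [h4]
    refine Finset.prod_congr rfl fun j _ => ?_
    rw [norm_neg]
  have h1 : ∀ j, ‖A j + B j‖ = 1 := by
    intro j
    by_contra hne
    have h2 : ‖A j + B j‖ < 1 := lt_of_le_of_ne (hθ j) hne
    have h3 : ∏ j, ‖A j + B j‖ ≤ ‖A j + B j‖ := by
      rw [← Finset.mul_prod_erase Finset.univ _ (Finset.mem_univ j)]
      refine mul_le_of_le_one_right (norm_nonneg _) ?_
      exact Finset.prod_le_one (fun _ _ => norm_nonneg _) fun j _ => hθ j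
    linarith
  have h2 : ∀ j, (‖A j‖ = 1 ∧ ‖B j‖ = ((p : ℝ) ^ a)⁻¹) ∨
      (‖A j‖ = ((p : ℝ) ^ a)⁻¹ ∧ ‖B j‖ = 1) := by
    intro j
    have h3 : ‖A j‖ * ‖B j‖ = ((p : ℝ) ^ a)⁻¹ := by rw [← norm_mul, hab j, norm_q]
    have h4 : 1 ≤ max ‖A j‖ ‖B j‖ := by
      rw [← h1 j]
      exact IsUltrametricDist.norm_add_le_max _ _
    rcases le_max_iff.1 h4 with h5 | h5
    · have h6 := le_antisymm (hA j) h5
      rw [h6, one_mul] at h3
      exact Or.inl ⟨h6, h3⟩
    · have h6 := le_antisymm (hB j) h5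
      rw [h6, mul_one] at h3
      exact Or.inr ⟨h3, h6⟩
  have hsc : ∀ r : ℝ, slopeCount p (wp (p ^ a) g x) ((p : ℝ) ^ a) r =
      g * ((if r = 0 then 1 else 0) + if r = 1 then 1 else 0) := by
    intro r
    rw [slopeCount_wp hab hx']
    have h3 : ((1 : ℝ) = ((p : ℝ) ^ a) ^ (-r)) ↔ r = 0 := by
      constructor
      · intro h
        have h4 : ((p : ℝ) ^ a) ^ (0 : ℝ) = ((p : ℝ) ^ a) ^ (-r) := by rw [Real.rpow_zero, h]
        have h5 := (Real.rpow_right_inj hq0 hq1.ne').1 h4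
        linarith
      · rintro rfl
        rw [neg_zero, Real.rpow_zero]
    have h4 : (((p : ℝ) ^ a)⁻¹ = ((p : ℝ) ^ a) ^ (-r)) ↔ r = 1 := by
      constructor
      · intro h
        rw [← Real.rpow_neg_one] at h
        have h5 := (Real.rpow_right_inj hq0 hq1.ne').1 h
        linarith
      · rintro rfl
        rw [Real.rpow_neg_one]
    have h5 : ∀ j ∈ (Finset.univ : Finset (Fin g)),
        ((if ‖A j‖ = ((p : ℝ) ^ a) ^ (-r) then 1 else 0) +
        (if ‖B j‖ = ((p : ℝ) ^ a) ^ (-r) then 1 else 0) : ℕ) =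
        ((if r = 0 then 1 else 0) + if r = 1 then 1 else 0) := by
      intro j _
      rcases h2 j with ⟨h6, h7⟩ | ⟨h6, h7⟩
      · rw [h6, h7, if_congr h3 rfl rfl, if_congr h4 rfl rfl]
      · rw [h6, h7, if_congr h3 rfl rfl, if_congr h4 rfl rfl, add_comm]
    rw [Finset.sum_congr rfl h5, Finset.sum_const, Finset.card_univ, Fintype.card_fin, smul_eq_mul]
  intro r
  rw [hsc r]
  by_cases hr0 : r = 0
  · exact ⟨0, by rw [hr0]; simp⟩
  by_cases hr1 : r = 1
  · exact ⟨g, by rw [hr1]; simp⟩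
  · exact ⟨0, by simp [hr0, hr1]⟩

end

end Pool.Agent.H857.PA
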