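import Mathlib
import Pool.Graph.R_pool_sql_team_seeded_64922ed1.X297.UB.Num

/-!
# Relations between Weil numbers: finitely many systems of exponents suffice
-/

set_option autoImplicit false

namespace Pool.Agent.H857.PA

open Polynomial Pool.Agent.X297.UB

/-- `x` is a Weil number of weight `w` relative to `q = p ^ a` whose slopes, relative to `q`, have
denominators dividing `D`: it is a root of a monic polynomial with integral coefficients all of whose
complex roots have absolute value `q ^ (w / 2)` and all of whose roots in the algebraic closure of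
the field of `p`-adic numbers have valuations in `(1 / D) ℤ` (for the valuation with the value one at
`q`). -/
def IsWeilNum (p : ℕ) [Fact p.Prime] (a D w : ℕ) (x : ℂ) : Prop :=
  ∃ F : ℤ[X], F.Monic ∧ aeval x F = 0 ∧
    (∀ z : ℂ, aeval z F = 0 → ‖z‖ ^ 2 = ((p : ℝ) ^ a) ^ w) ∧
    ∀ y : PadicAlgCl p, aeval y F = 0 → ∃ r : ℕ, ‖y‖ ^ D = (((p : ℝ) ^ a)⁻¹) ^ r

section

variable {p : ℕ} [hp : Fact p.Prime] {a : ℕ}

/-- The exponents `e` of the relations `∏ α i ^ e i = q ^ j`, up to a root of unity. -/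
def RelExp {ι : Type} [Fintype ι] (q : ℕ) (w : ι → ℕ) (α : ι → ℂ) (e : ι → ℕ) : Prop :=
  ∃ j : ℕ, ∑ i, e i * w i = 2 * j ∧ ∃ s, 0 < s ∧ (∏ i, α i ^ e i) ^ s = ((q : ℂ) ^ j) ^ s

lemma slope_of_norm {D : ℕ} {y : PadicAlgCl p} {r : ℕ}
    (h : ‖y‖ ^ D = (((p : ℝ) ^ a)⁻¹) ^ r) : (D : ℝ) * slp p y = a * r := by
  have h1 := congrArg (Real.logb p) h
  rw [Real.logb_pow, Real.logb_pow, Real.logb_inv, Real.logb_pow,
    Real.logb_self_eq_one (one_lt_p (p := p))] at h1
  rw [slp]
  linarith

/-- The exponents of relations form one of finitely many sets. -/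
theorem exists_table_fin {b : ℕ} {D c : ℕ} (ha : 0 < a) (hD : 0 < D) {w : Fin b → ℕ}
    {α : Fin b → ℂ} (h : ∀ i, w i < c ∧ IsWeilNum p a D (w i) (α i)) :
    ∃ (R : Set (Fin b → Fin (D * c))) (w' : Fin b → Fin c), ∀ e : Fin b → ℕ,
      e ∈ sols D R w' ↔ RelExp (p ^ a) w α e := by
  choose F hF using fun i => (h i).2
  set L := algebraicClosure ℚ ℂ with hL
  have hnorm : Normal ℚ L := by
    have h := algebraicClosure.isAlgClosure ℚ ℂ
    exact @IsAlgClosure.normal ℚ (algebraicClosure ℚ ℂ) _ _ (algebraicClosure ℚ ℂ).algebra' h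
  have hmem : ∀ i, α i ∈ L := by
    intro i
    rw [hL, mem_algebraicClosure_iff]
    refine IsIntegral.isAlgebraic ?_
    have h1 : IsIntegral ℤ (α i) := ⟨F i, (hF i).1, (hF i).2.1⟩
    exact IsIntegral.tower_top (R := ℤ) h1
  set β : Fin b → L := fun i => ⟨α i, hmem i⟩ with hβ
  have hroot : ∀ i, aeval (β i) (F i) = 0 := by
    intro i
    apply (algebraMap L ℂ).injective
    rw [map_zero]
    have h1 : algebraMap L ℂ (aeval (β i) (F i)) = aeval (α i) (F i) := by
      rw [aeval_def, Polynomial.hom_eval₂, aeval_def]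
      congr 1
    rw [h1]
    exact (hF i).2.1
  have hW : Weil p a β w := ⟨fun i => ⟨F i, (hF i).1, hroot i, (hF i).2.2.1⟩⟩
  obtain ⟨R, w', hR⟩ := hW.exists_sols ha (fun i => (h i).1) hD (by
    intro τ i
    obtain ⟨r, hr⟩ := (hF i).2.2.2 (τ (β i)) (aeval_hom τ (hroot i))
    exact ⟨r, slope_of_norm hr⟩)
  refine ⟨R, w', fun e => ?_⟩
  rw [hR, RelExp]
  refine exists_congr fun j => and_congr Iff.rfl (exists_congr fun s => and_congr Iff.rfl ?_)
  have h1 : algebraMap L ℂ ((∏ i, β i ^ e i) ^ s) = (∏ i, α i ^ e i) ^ s := by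
    rw [map_pow, map_prod]
    congr 1
  have h2 : algebraMap L ℂ ((p : L) ^ (a * s * j)) = (((p ^ a : ℕ) : ℂ) ^ j) ^ s := by
    rw [map_pow, map_natCast]
    push_cast
    rw [← pow_mul, ← pow_mul]
    congr 1
    ring
  rw [← h1, ← h2]
  exact (algebraMap L ℂ).injective.eq_iff.symm

end

/-- **Finitely many systems of exponents.** For every property `T` of systems of exponents there
is a finite set of systems with the property which contains the exponents of a relation between any
given Weil numbers of weights less than `c`, slopes in `(1 / D) ℤ`, as soon as there is such a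
relation. -/
theorem exists_finite (ι : Type) [Fintype ι] (D c : ℕ) (hD : 0 < D) (T : (ι → ℕ) → Prop) :
    ∃ N : Finset (ι → ℕ), (∀ e ∈ N, T e) ∧
      ∀ (p : ℕ) [Fact p.Prime] (a : ℕ), 0 < a → ∀ (w : ι → ℕ) (α : ι → ℂ),
        (∀ i, w i < c ∧ IsWeilNum p a D (w i) (α i)) →
        (∃ e, T e ∧ RelExp (p ^ a) w α e) → ∃ e ∈ N, RelExp (p ^ a) w α e := by
  classical
  set b := Fintype.card ι with hb
  let φ : ι ≃ Fin b := Fintype.equivFin ι
  have hfin : Finite (Set (Fin b → Fin (D * c)) × (Fin b → Fin c)) := inferInstance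
  have : Fintype (Set (Fin b → Fin (D * c)) × (Fin b → Fin c)) := Fintype.ofFinite _
  let S : Set (Fin b → Fin (D * c)) × (Fin b → Fin c) → Prop := fun x =>
    ∃ e : ι → ℕ, T e ∧ (fun i => e (φ.symm i)) ∈ sols D x.1 x.2
  let pick : Set (Fin b → Fin (D * c)) × (Fin b → Fin c) → (ι → ℕ) := fun x =>
    if h : S x then h.choose else 0
  refine ⟨(Finset.univ.filter S).image pick, ?_, ?_⟩
  · intro e he
    obtain ⟨x, hx, rfl⟩ := Finset.mem_image.1 he
    have hS := (Finset.mem_filter.1 hx).2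
    simp only [pick, dif_pos hS]
    exact hS.choose_spec.1
  · intro p _ a ha w α hα ⟨e, hT, he⟩
    obtain ⟨R, w', hR⟩ := exists_table_fin (p := p) (a := a) ha hD
      (w := fun i => w (φ.symm i)) (α := fun i => α (φ.symm i)) (fun i => hα (φ.symm i))
    have hkey : ∀ e : ι → ℕ, RelExp (p ^ a) w α e ↔ (fun i => e (φ.symm i)) ∈ sols D R w' := by
      intro e
      rw [hR, RelExp, RelExp]
      have h1 : ∑ i, e i * w i = ∑ i, e (φ.symm i) * w (φ.symm i) :=
        (Equiv.sum_comp φ.symm fun i => e i * w i).symm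
      have h2 : ∏ i, α i ^ e i = ∏ i, α (φ.symm i) ^ e (φ.symm i) :=
        (Equiv.prod_comp φ.symm fun i => α i ^ e i).symm
      rw [h1, h2]
    have hS : S (R, w') := ⟨e, hT, (hkey e).1 he⟩
    refine ⟨pick (R, w'), Finset.mem_image.2 ⟨(R, w'), Finset.mem_filter.2
      ⟨Finset.mem_univ _, hS⟩, rfl⟩, ?_⟩
    rw [hkey]
    simp only [pick, dif_pos hS]
    exact hS.choose_spec.2

end Pool.Agent.H857.PA
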